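import Mathlib

set_option autoImplicit false

/-!
# Area of the boundary of the Multibrot sets: radial integrals
-/

namespace Pool.Agent.W_1365a2_h11

open MeasureTheory Real

lemma lintegral_radial {g : ℝ → ENNReal} (hg : Measurable g) :
    ∫⁻ c : ℂ, g ‖c‖ = ENNReal.ofReal (2 * π) * ∫⁻ r in Set.Ioi 0, ENNReal.ofReal r * g r := by
  have hp : 0 < π := Real.pi_pos
  rw [← Complex.lintegral_comp_polarCoord_symm, polarCoord_target]
  have h1 : (∫⁻ p in Set.Ioi (0 : ℝ) ×ˢ Set.Ioo (-π) π, ENNReal.ofReal p.1 •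
      g ‖Complex.polarCoord.symm p‖) =
      ∫⁻ p in Set.Ioi (0 : ℝ) ×ˢ Set.Ioo (-π) π, ENNReal.ofReal p.1 * g p.1 := by
    refine setLIntegral_congr_fun (measurableSet_Ioi.prod measurableSet_Ioo) ?_
    rintro ⟨r, θ⟩ ⟨hr, -⟩
    have hr' : (0 : ℝ) < r := hr
    simp only [smul_eq_mul]
    rw [Complex.norm_polarCoord_symm, abs_of_pos hr']
  rw [h1]
  have hmp : Measurable fun p : ℝ × ℝ => ENNReal.ofReal p.1 * g p.1 :=
    (ENNReal.measurable_ofReal.comp measurable_fst).mul (hg.comp measurable_fst)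
  rw [Measure.volume_eq_prod, ← Measure.prod_restrict, lintegral_prod _ hmp.aemeasurable]
  simp only [lintegral_const, Measure.restrict_apply MeasurableSet.univ, Set.univ_inter,
    Real.volume_Ioo]
  have h2 : ENNReal.ofReal (π - -π) = ENNReal.ofReal (2 * π) := by
    congr 1
    ring
  have h3 : Measurable fun x : ℝ => ENNReal.ofReal x * g x := ENNReal.measurable_ofReal.mul hg
  rw [h2, lintegral_mul_const _ h3, mul_comm]

/-- The annulus of the parameters of moderate size. -/
lemma volume_annulus_le {n : ℕ} (hn : 16 ≤ n) :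
    volume {c : ℂ | 1 ≤ 3 * (n : ℝ) * ‖c‖ ^ (n - 1) ∧ n * ‖c‖ ^ (n - 1) ≤ 400} ≤
      ENNReal.ofReal (8 * π * log 1200 / (n - 1 : ℕ)) := by
  have hp : 0 < π := Real.pi_pos
  have hn0 : (0 : ℝ) < n := by
    have : 0 < n := by omega
    exact_mod_cast this
  have hn16 : (16 : ℝ) ≤ n := by exact_mod_cast hn
  set m := n - 1 with hm
  have hm1 : 1 ≤ m := by omega
  have hm0 : (0 : ℝ) < m := by exact_mod_cast hm1
  set a : ℝ := (1 / (3 * (n : ℝ))) ^ ((1 : ℝ) / m) with ha
  set b : ℝ := (400 / (n : ℝ)) ^ ((1 : ℝ) / m) with hb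
  have ha0 : 0 < a := Real.rpow_pos_of_pos (by positivity) _
  have hb0 : 0 < b := Real.rpow_pos_of_pos (by positivity) _
  have hab : a ≤ b := by
    refine Real.rpow_le_rpow (by positivity) ?_ (by positivity)
    rw [div_le_div_iff₀ (by positivity) hn0]
    nlinarith
  have hb2 : b ≤ 2 := by
    have h1 : (400 : ℝ) / n ≤ 2 ^ m := by
      rw [div_le_iff₀ hn0]
      have h2 : (2 : ℝ) ^ 15 ≤ 2 ^ m := pow_le_pow_right₀ (by norm_num) (by omega)
      have h3 : (25 : ℝ) ≤ 2 ^ m := le_trans (by norm_num) h2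
      nlinarith
    calc b ≤ ((2 : ℝ) ^ m) ^ ((1 : ℝ) / m) :=
          Real.rpow_le_rpow (by positivity) h1 (by positivity)
      _ = 2 := by
          rw [one_div]
          exact Real.pow_rpow_inv_natCast (by norm_num) (by omega)
  set S : Set ℝ := {r : ℝ | 1 ≤ 3 * (n : ℝ) * r ^ m ∧ n * r ^ m ≤ 400} with hS
  have hSm : MeasurableSet S := by
    have e1 : IsClosed {r : ℝ | 1 ≤ 3 * (n : ℝ) * r ^ m} :=
      isClosed_le continuous_const (by fun_prop)
    have e2 : IsClosed {r : ℝ | n * r ^ m ≤ 400} := isClosed_le (by fun_prop) continuous_const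
    exact (e1.inter e2).measurableSet
  have hAm : MeasurableSet {c : ℂ | 1 ≤ 3 * (n : ℝ) * ‖c‖ ^ m ∧ n * ‖c‖ ^ m ≤ 400} := by
    have e1 : IsClosed {c : ℂ | 1 ≤ 3 * (n : ℝ) * ‖c‖ ^ m} :=
      isClosed_le continuous_const (by fun_prop)
    have e2 : IsClosed {c : ℂ | n * ‖c‖ ^ m ≤ 400} := isClosed_le (by fun_prop) continuous_const
    exact (e1.inter e2).measurableSet
  have h1 : volume {c : ℂ | 1 ≤ 3 * (n : ℝ) * ‖c‖ ^ m ∧ n * ‖c‖ ^ m ≤ 400} =
      ∫⁻ c : ℂ, S.indicator 1 ‖c‖ := by
    rw [← lintegral_indicator_one hAm]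
    rfl
  rw [h1, lintegral_radial (measurable_one.indicator hSm)]
  have h2 : ∫⁻ r in Set.Ioi (0 : ℝ), ENNReal.ofReal r * S.indicator 1 r ≤
      ∫⁻ r in Set.Icc a b, ENNReal.ofReal (4 * r⁻¹) := by
    rw [← lintegral_indicator measurableSet_Ioi, ← lintegral_indicator measurableSet_Icc]
    refine lintegral_mono fun r => ?_
    by_cases hr : r ∈ Set.Ioi (0 : ℝ)
    · rw [Set.indicator_of_mem hr]
      have hr' : 0 < r := hr
      by_cases hrS : r ∈ S
      · rw [Set.indicator_of_mem hrS]
        have hρr : (r ^ m) ^ ((1 : ℝ) / m) = r := by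
          rw [one_div]
          exact Real.pow_rpow_inv_natCast hr'.le (by omega)
        have hmem : r ∈ Set.Icc a b := by
          constructor
          · rw [← hρr]
            refine Real.rpow_le_rpow (by positivity) ?_ (by positivity)
            rw [div_le_iff₀ (by positivity)]
            linarith [hrS.1]
          · rw [← hρr]
            refine Real.rpow_le_rpow (by positivity) ?_ (by positivity)
            rw [le_div_iff₀ hn0]
            linarith [hrS.2]
        rw [Set.indicator_of_mem hmem, Pi.one_apply, mul_one]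
        refine ENNReal.ofReal_le_ofReal ?_
        rw [← div_eq_mul_inv, le_div_iff₀ hr']
        have := hmem.2.trans hb2
        nlinarith
      · rw [Set.indicator_of_notMem hrS, mul_zero]
        exact zero_le
    · rw [Set.indicator_of_notMem hr]
      exact zero_le
  have h3 : (∫⁻ r in Set.Icc a b, ENNReal.ofReal (4 * r⁻¹)) =
      ENNReal.ofReal (4 / m * log 1200) := by
    rw [← ofReal_integral_eq_lintegral_ofReal]
    · congr 1
      rw [integral_Icc_eq_integral_Ioc, ← intervalIntegral.integral_of_le hab,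
        intervalIntegral.integral_const_mul, integral_inv_of_pos ha0 hb0]
      have h4 : b / a = (1200 : ℝ) ^ ((1 : ℝ) / m) := by
        rw [hb, ha, ← Real.div_rpow (by positivity) (by positivity)]
        congr 1
        field_simp
        norm_num
      rw [h4, Real.log_rpow (by norm_num)]
      ring
    · refine ContinuousOn.integrableOn_Icc ?_
      refine ContinuousOn.mul continuousOn_const ?_
      exact continuousOn_inv₀.mono fun r hr => by
        have : 0 < r := lt_of_lt_of_le ha0 hr.1
        exact this.ne'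
    · filter_upwards [ae_restrict_mem measurableSet_Icc] with r hr
      have : 0 < r := lt_of_lt_of_le ha0 hr.1
      simp only [Pi.zero_apply]
      positivity
  rw [h3] at h2
  refine (mul_le_mul_right h2 _).trans ?_
  rw [← ENNReal.ofReal_mul (by positivity)]
  refine ENNReal.ofReal_le_ofReal (le_of_eq ?_)
  ring

/-- The integral of the density of the covering argument. -/
lemma lintegral_reg_le {n : ℕ} (hn : 16 ≤ n) {K : ℝ} (hK : 400 ≤ K) :
    ∫⁻ c in {c : ℂ | K / 2 ≤ n * ‖c‖ ^ (n - 1) ∧ ‖c‖ ≤ 4},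
      ENNReal.ofReal (log (n * ‖c‖ ^ (n - 1)) / (n * ‖c‖ ^ (n - 1))) ≤
      ENNReal.ofReal (64 * π * (1 + log K) / (K * (n - 1 : ℕ))) := by
  have hp : 0 < π := Real.pi_pos
  have hn0 : (0 : ℝ) < n := by
    have : 0 < n := by omega
    exact_mod_cast this
  have hK0 : 0 < K := by linarith
  set m := n - 1 with hm
  have hm1 : 1 ≤ m := by omega
  have hm0 : (0 : ℝ) < m := by exact_mod_cast hm1
  set b : ℝ := (K / 2 / (n : ℝ)) ^ ((1 : ℝ) / m) with hb
  have hb0 : 0 < b := Real.rpow_pos_of_pos (by positivity) _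
  have hbm : n * b ^ m = K / 2 := by
    rw [hb, one_div, Real.rpow_inv_natCast_pow (by positivity) (by omega)]
    field_simp
  set S : Set ℝ := {r : ℝ | K / 2 ≤ (n : ℝ) * r ^ m ∧ r ≤ 4} with hS
  have hSm : MeasurableSet S := by
    have e1 : IsClosed {r : ℝ | K / 2 ≤ (n : ℝ) * r ^ m} :=
      isClosed_le continuous_const (by fun_prop)
    have e2 : IsClosed {r : ℝ | r ≤ 4} := isClosed_le (by fun_prop) continuous_const
    exact (e1.inter e2).measurableSet
  have hAm : MeasurableSet {c : ℂ | K / 2 ≤ n * ‖c‖ ^ m ∧ ‖c‖ ≤ 4} := by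
    have e1 : IsClosed {c : ℂ | K / 2 ≤ n * ‖c‖ ^ m} :=
      isClosed_le continuous_const (by fun_prop)
    have e2 : IsClosed {c : ℂ | ‖c‖ ≤ 4} := isClosed_le (by fun_prop) continuous_const
    exact (e1.inter e2).measurableSet
  set g : ℝ → ENNReal := fun r => ENNReal.ofReal (log (n * r ^ m) / (n * r ^ m)) with hg
  have hgm : Measurable g := by
    refine ENNReal.measurable_ofReal.comp ?_
    have h1 : Measurable fun r : ℝ => (n : ℝ) * r ^ m := by fun_prop
    exact (Real.measurable_log.comp h1).div h1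
  have h1 : (∫⁻ c in {c : ℂ | K / 2 ≤ n * ‖c‖ ^ m ∧ ‖c‖ ≤ 4},
      ENNReal.ofReal (log (n * ‖c‖ ^ m) / (n * ‖c‖ ^ m))) = ∫⁻ c : ℂ, S.indicator g ‖c‖ := by
    rw [← lintegral_indicator hAm]
    rfl
  rw [h1, lintegral_radial (hgm.indicator hSm)]
  have h2 : ∫⁻ r in Set.Ioi (0 : ℝ), ENNReal.ofReal r * S.indicator g r ≤
      ∫⁻ r in Set.Ioi b, ENNReal.ofReal (16 * (log (n * r ^ m) / (r * (n * r ^ m)))) := by
    rw [← lintegral_indicator measurableSet_Ioi, ← lintegral_indicator measurableSet_Ioi]
    refine lintegral_mono_ae ?_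
    have hne : ∀ᵐ r : ℝ, r ≠ b := by
      simp [ae_iff]
    filter_upwards [hne] with r hrb
    by_cases hr : r ∈ Set.Ioi (0 : ℝ)
    · rw [Set.indicator_of_mem hr]
      have hr' : 0 < r := hr
      by_cases hrS : r ∈ S
      · rw [Set.indicator_of_mem hrS]
        have hρr : (r ^ m) ^ ((1 : ℝ) / m) = r := by
          rw [one_div]
          exact Real.pow_rpow_inv_natCast hr'.le (by omega)
        have hmem : r ∈ Set.Ioi b := by
          have hle : b ≤ r := by
            rw [← hρr]
            refine Real.rpow_le_rpow (by positivity) ?_ (by positivity)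
            rw [div_le_iff₀ hn0]
            linarith [hrS.1]
          exact lt_of_le_of_ne hle (Ne.symm hrb)
        rw [Set.indicator_of_mem hmem, hg, ← ENNReal.ofReal_mul hr'.le]
        refine ENNReal.ofReal_le_ofReal ?_
        have hs : K / 2 ≤ n * r ^ m := hrS.1
        have hs0 : 0 < n * r ^ m := by linarith
        have hlog : 0 ≤ log (n * r ^ m) := Real.log_nonneg (by linarith)
        have hr4 : r ≤ 4 := hrS.2
        have h5 : r * r ≤ 16 := by nlinarith
        have e1 : r * (log (n * r ^ m) / (n * r ^ m)) =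
            (r * r) * (log (n * r ^ m) / (r * (n * r ^ m))) := by
          field_simp
        rw [e1]
        exact mul_le_mul_of_nonneg_right h5 (by positivity)
      · rw [Set.indicator_of_notMem hrS, mul_zero]
        exact zero_le
    · rw [Set.indicator_of_notMem hr]
      exact zero_le
  set G : ℝ → ℝ := fun r => -(16 / m) * ((1 + log (n * r ^ m)) / (n * r ^ m)) with hG
  have hderiv : ∀ r ∈ Set.Ici b,
      HasDerivAt G (16 * (log (n * r ^ m) / (r * (n * r ^ m)))) r := by
    intro r hr
    have hr' : 0 < r := lt_of_lt_of_le hb0 hr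
    have hs0 : 0 < (n : ℝ) * r ^ m := by positivity
    have d1 : HasDerivAt (fun r : ℝ => (n : ℝ) * r ^ m) (n * (m * r ^ (m - 1))) r :=
      (hasDerivAt_pow m r).const_mul _
    have d2 := ((d1.log hs0.ne').const_add 1).div d1 hs0.ne'
    have d3 := d2.const_mul (-(16 / (m : ℝ)))
    refine d3.congr_deriv ?_
    have e1 : r ^ m = r * r ^ (m - 1) := by
      rw [← pow_succ']
      congr 1
      omega
    have e2 : r ^ (m - 1) ≠ 0 := by positivity
    rw [e1]
    field_simp
    ring
  have hpos : ∀ r ∈ Set.Ioi b, 0 ≤ 16 * (log (n * r ^ m) / (r * (n * r ^ m))) := by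
    intro r hr
    have hr' : 0 < r := lt_trans hb0 hr
    have h3 : K / 2 ≤ n * r ^ m := by
      rw [← hbm]
      refine mul_le_mul_of_nonneg_left ?_ hn0.le
      exact pow_le_pow_left₀ hb0.le (le_of_lt hr) m
    have h4 : 0 ≤ log (n * r ^ m) := Real.log_nonneg (by linarith)
    positivity
  have htend : Filter.Tendsto G Filter.atTop (nhds 0) := by
    have t1 : Filter.Tendsto (fun r : ℝ => (n : ℝ) * r ^ m) Filter.atTop Filter.atTop :=
      (Filter.tendsto_pow_atTop (by omega)).const_mul_atTop hn0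
    have t2 : Filter.Tendsto (fun x : ℝ => log x / x) Filter.atTop (nhds 0) :=
      Real.isLittleO_log_id_atTop.tendsto_div_nhds_zero
    have t3 : Filter.Tendsto (fun x : ℝ => 1 / x) Filter.atTop (nhds 0) := by
      simpa using tendsto_inv_atTop_zero (𝕜 := ℝ)
    have t4 : Filter.Tendsto (fun x : ℝ => -(16 / (m : ℝ)) * ((1 + log x) / x))
        Filter.atTop (nhds 0) := by
      have t5 := (t3.add t2).const_mul (-(16 / (m : ℝ)))
      rw [add_zero, mul_zero] at t5
      refine t5.congr fun x => ?_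
      rw [← add_div]
    exact t4.comp t1
  have h3 : (∫⁻ r in Set.Ioi b, ENNReal.ofReal (16 * (log (n * r ^ m) / (r * (n * r ^ m))))) ≤
      ENNReal.ofReal (32 * (1 + log K) / (K * m)) := by
    rw [← ofReal_integral_eq_lintegral_ofReal]
    · refine ENNReal.ofReal_le_ofReal ?_
      rw [integral_Ioi_of_hasDerivAt_of_nonneg' hderiv hpos htend]
      have e1 : G b = -(16 / m) * ((1 + log (K / 2)) / (K / 2)) := by
        rw [hG]
        simp only [hbm]
      rw [e1]
      have e2 : 0 - -(16 / (m : ℝ)) * ((1 + log (K / 2)) / (K / 2)) =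
          32 * (1 + log (K / 2)) / (K * m) := by
        field_simp
        ring
      rw [e2]
      refine div_le_div_of_nonneg_right ?_ (by positivity)
      have e3 : log (K / 2) ≤ log K := Real.log_le_log (by linarith) (by linarith)
      linarith
    · exact integrableOn_Ioi_deriv_of_nonneg' hderiv hpos htend
    · filter_upwards [ae_restrict_mem measurableSet_Ioi] with r hr
      exact hpos r hr
  refine (mul_le_mul_right (h2.trans h3) _).trans ?_
  rw [← ENNReal.ofReal_mul (by positivity)]
  refine ENNReal.ofReal_le_ofReal (le_of_eq ?_)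
  ring

end Pool.Agent.W_1365a2_h11
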