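import Mathlib
import Pool.Prelude.Def_F_c31e40fa

set_option autoImplicit false

/-!
# Area of the boundary of the Multibrot sets: dynamical criteria
-/

namespace Pool.Agent.W_1365a2_h11

open Filter Topology Bornology N62a1eb23

/-- If `|z| > |c|` and `|z|^(n-1) ≥ 2`, then the orbit of `z` tends to infinity. -/
lemma escape_orbit {n : ℕ} (hn : 2 ≤ n) {c z : ℂ} (h1 : ‖c‖ < ‖z‖) (h2 : 2 ≤ ‖z‖ ^ (n - 1)) :
    Tendsto (fun k => (fun w : ℂ => w ^ n + c)^[k] z) atTop (cobounded ℂ) := by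
  have key : ∀ k : ℕ, 2 ^ k * (‖z‖ - ‖c‖) ≤ ‖(fun w : ℂ => w ^ n + c)^[k] z‖ - ‖c‖ ∧
      2 ≤ ‖(fun w : ℂ => w ^ n + c)^[k] z‖ ^ (n - 1) := by
    intro k
    induction k with
    | zero => simpa using h2
    | succ k ih =>
      rw [Function.iterate_succ_apply']
      set x := (fun w : ℂ => w ^ n + c)^[k] z with hx
      obtain ⟨ih1, ih2⟩ := ih
      have hpos : 0 < ‖z‖ - ‖c‖ := sub_pos.2 h1
      have h3 : 0 < ‖x‖ - ‖c‖ := lt_of_lt_of_le (by positivity) ih1
      have h4 : ‖x‖ ^ n = ‖x‖ ^ (n - 1) * ‖x‖ := by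
        rw [← pow_succ]
        congr 1
        omega
      have h5 : 2 * ‖x‖ ≤ ‖x‖ ^ n := by
        rw [h4]
        exact mul_le_mul_of_nonneg_right ih2 (norm_nonneg _)
      have h6 : ‖x ^ n‖ - ‖c‖ ≤ ‖x ^ n + c‖ := by
        have := norm_sub_norm_le (x ^ n) (-c)
        simpa using this
      rw [norm_pow] at h6
      have h7 : 2 * ‖x‖ - ‖c‖ ≤ ‖x ^ n + c‖ := by linarith
      constructor
      · rw [pow_succ]
        nlinarith [norm_nonneg c]
      · have h8 : ‖x‖ ≤ ‖x ^ n + c‖ := by linarith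
        exact ih2.trans (pow_le_pow_left₀ (norm_nonneg _) h8 _)
  rw [← tendsto_norm_atTop_iff_cobounded]
  have hpos : 0 < ‖z‖ - ‖c‖ := sub_pos.2 h1
  have h9 : Tendsto (fun k : ℕ => (2 : ℝ) ^ k * (‖z‖ - ‖c‖)) atTop atTop :=
    (tendsto_pow_atTop_atTop_of_one_lt (by norm_num)).atTop_mul_const hpos
  refine tendsto_atTop_mono (fun k => ?_) h9
  have := (key k).1
  linarith [norm_nonneg c]

/-- Escape at the second step. -/
lemma not_mem_of_escape {n : ℕ} (hn : 2 ≤ n) {c : ℂ} (h1 : 1 < ‖1 + c ^ (n - 1)‖)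
    (h2 : 2 < ‖c‖ ^ (n - 1) * ‖1 + c ^ (n - 1)‖ ^ (n - 1)) : c ∉ multibrotSet n := by
  intro hc
  apply hc
  have hc0 : c ≠ 0 := by
    rintro rfl
    have h3 : n - 1 ≠ 0 := by omega
    rw [zero_pow h3] at h1
    simp at h1
  have h3 : (fun z : ℂ => z ^ n + c)^[2] 0 = c * (1 + c ^ (n - 1)) := by
    simp only [Function.iterate_succ, Function.iterate_zero, Function.comp, id]
    have h4 : c * c ^ (n - 1) = c ^ n := by
      rw [← pow_succ']
      congr 1
      omega
    have h5 : n ≠ 0 := by omega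
    rw [zero_pow h5, zero_add, mul_add, h4, mul_one]
    ring
  have h4 : Tendsto (fun k => (fun w : ℂ => w ^ n + c)^[k] (c * (1 + c ^ (n - 1)))) atTop
      (cobounded ℂ) := by
    apply escape_orbit hn
    · rw [norm_mul]
      have : 0 < ‖c‖ := norm_pos_iff.2 hc0
      nlinarith
    · rw [norm_mul, mul_pow]
      exact h2.le
  rw [← h3] at h4
  have h5 : (fun k => (fun w : ℂ => w ^ n + c)^[k] ((fun z : ℂ => z ^ n + c)^[2] 0)) =
      fun k => (fun w : ℂ => w ^ n + c)^[k + 2] 0 := by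
    funext k
    rw [Function.iterate_add_apply]
  rw [h5] at h4
  exact (tendsto_add_atTop_iff_nat 2).1 h4

/-- A bounded orbit does not tend to infinity. -/
lemma mem_of_bounded {n : ℕ} {c : ℂ} (R : ℝ)
    (h : ∃ᶠ k in atTop, ‖(fun z : ℂ => z ^ n + c)^[k] 0‖ ≤ R) : c ∈ multibrotSet n := by
  intro hc
  rw [← tendsto_norm_atTop_iff_cobounded] at hc
  have h1 := hc.eventually_gt_atTop R
  obtain ⟨k, hk1, hk2⟩ := (h.and_eventually h1).exists
  exact absurd hk1 (not_le.2 hk2)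

lemma pow_one_add_le {n : ℕ} {x : ℝ} (hx : 0 ≤ x) (hn : (n : ℝ) * x ≤ 1) :
    (1 + x) ^ n ≤ 1 + 2 * (n * x) := by
  have h1 : (1 + x) ^ n ≤ Real.exp (n * x) := by
    have h2 : 1 + x ≤ Real.exp x := by
      have := Real.add_one_le_exp x
      linarith
    calc (1 + x) ^ n ≤ (Real.exp x) ^ n := pow_le_pow_left₀ (by linarith) h2 n
      _ = Real.exp (n * x) := by rw [← Real.exp_nat_mul]
  have h3 : 0 ≤ (n : ℝ) * x := mul_nonneg (Nat.cast_nonneg _) hx
  have h4 := Real.abs_exp_sub_one_le (x := n * x) (by rw [abs_of_nonneg h3]; exact hn)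
  rw [abs_of_nonneg h3] at h4
  have h5 := (abs_le.1 h4).2
  linarith

/-- Interior points: small parameters. -/
lemma mem_of_small {n : ℕ} (hn : 2 ≤ n) {c : ℂ} (h : 3 * (n : ℝ) * ‖c‖ ^ (n - 1) < 1) :
    c ∈ multibrotSet n := by
  have hn0 : (0 : ℝ) < n := by
    have : 0 < n := by omega
    exact_mod_cast this
  set r := ‖c‖ with hr
  have hr0 : 0 ≤ r := norm_nonneg c
  set δ : ℝ := 1 / n with hδ
  have hδ0 : 0 < δ := by positivity
  have hb : ∀ k : ℕ, ‖(fun z : ℂ => z ^ n + c)^[k] 0‖ ≤ r * (1 + δ) := by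
    intro k
    induction k with
    | zero =>
      simp only [Function.iterate_zero, id, norm_zero]
      positivity
    | succ k ih =>
      rw [Function.iterate_succ_apply']
      set x := (fun z : ℂ => z ^ n + c)^[k] 0 with hx
      have h1 : ‖x ^ n + c‖ ≤ ‖x‖ ^ n + r := by
        refine (norm_add_le _ _).trans ?_
        rw [norm_pow]
      have h2 : ‖x‖ ^ n ≤ (r * (1 + δ)) ^ n := pow_le_pow_left₀ (norm_nonneg _) ih n
      have h3 : (1 + δ) ^ n ≤ 3 := by
        have h4 := pow_one_add_le (n := n) (x := δ) hδ0.le (by rw [hδ]; field_simp; rfl)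
        have h5 : (n : ℝ) * δ = 1 := by rw [hδ]; field_simp
        rw [h5] at h4
        linarith
      have h4 : r ^ n = r * r ^ (n - 1) := by
        rw [← pow_succ']
        congr 1
        omega
      have h5 : (r * (1 + δ)) ^ n ≤ r * δ := by
        rw [mul_pow, h4]
        have h6 : r ^ (n - 1) * (1 + δ) ^ n ≤ δ := by
          have h7 : r ^ (n - 1) * 3 ≤ δ := by
            rw [hδ, le_div_iff₀ hn0]
            nlinarith
          have h8 : 0 ≤ r ^ (n - 1) := by positivity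
          nlinarith
        calc r * r ^ (n - 1) * (1 + δ) ^ n = r * (r ^ (n - 1) * (1 + δ) ^ n) := by ring
          _ ≤ r * δ := mul_le_mul_of_nonneg_left h6 hr0
      calc ‖x ^ n + c‖ ≤ ‖x‖ ^ n + r := h1
        _ ≤ r * δ + r := by linarith
        _ = r * (1 + δ) := by ring
  exact mem_of_bounded (r * (1 + δ)) (Frequently.of_forall hb)

/-- Interior points: attracting cycles of period two. -/
lemma mem_of_left {n : ℕ} (hn : 2 ≤ n) {c : ℂ}
    (h : ‖1 + c ^ (n - 1)‖ < 1 - (2 + 2 * Real.log (2 * n)) / n) : c ∈ multibrotSet n := by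
  have hn1 : (2 : ℝ) ≤ n := by exact_mod_cast hn
  have hn0 : (0 : ℝ) < n := by linarith
  have hL : 0 ≤ Real.log (2 * n) := Real.log_nonneg (by linarith)
  set r := ‖c‖ with hr
  have hr0 : 0 ≤ r := norm_nonneg c
  set u := c ^ (n - 1) with hu
  have hρ : ‖u‖ = r ^ (n - 1) := norm_pow _ _
  have hlt1 : ‖1 + u‖ < 1 := by
    refine h.trans_le ?_
    have : 0 ≤ (2 + 2 * Real.log (2 * n)) / n := by positivity
    linarith
  have hρ2 : ‖u‖ ≤ 2 := by
    have h1 : ‖u‖ - ‖(1 : ℂ)‖ ≤ ‖u + 1‖ := by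
      have := norm_sub_norm_le u (-1)
      simpa using this
    rw [norm_one, add_comm u 1] at h1
    linarith
  set δ : ℝ := 1 / (2 * n ^ 2) with hδ
  have hδ0 : 0 < δ := by positivity
  have hnδ : (n : ℝ) * δ = 1 / (2 * n) := by
    rw [hδ]
    field_simp
  have hcn : ∀ y : ℂ, (c * y) ^ n + c = c * (1 + u * y ^ n) := by
    intro y
    have h4 : c ^ n = c * c ^ (n - 1) := by
      rw [← pow_succ']
      congr 1
      omega
    rw [mul_pow, h4]
    ring
  -- one round trip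
  have htrip : ∀ y : ℂ, ‖y - 1‖ ≤ δ → ‖(1 + u * (1 + u * y ^ n) ^ n) - 1‖ ≤ δ := by
    intro y hy
    have h1 : ‖y ^ n - 1‖ ≤ (1 + δ) ^ n - 1 := by
      have h2 : y ^ n - 1 = (y - 1) * ∑ i ∈ Finset.range n, y ^ i := by
        rw [mul_comm]
        exact (geom_sum_mul y n).symm
      have h3 : (1 + δ) ^ n - 1 = δ * ∑ i ∈ Finset.range n, (1 + δ) ^ i := by
        have := geom_sum_mul (1 + δ) n
        rw [← this]
        ring
      have hy1 : ‖y‖ ≤ 1 + δ := by
        have h4 : y = (y - 1) + 1 := by ring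
        rw [h4]
        refine (norm_add_le _ _).trans ?_
        rw [norm_one]
        linarith
      rw [h2, h3, norm_mul]
      refine mul_le_mul hy ?_ (norm_nonneg _) hδ0.le
      refine (norm_sum_le _ _).trans (Finset.sum_le_sum fun i _ => ?_)
      rw [norm_pow]
      exact pow_le_pow_left₀ (norm_nonneg _) hy1 i
    have h2 : (1 + δ) ^ n - 1 ≤ 1 / n := by
      have h3 := pow_one_add_le (n := n) (x := δ) hδ0.le (by
        rw [hnδ, div_le_one (by positivity)]
        linarith)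
      rw [hnδ] at h3
      have h4 : 2 * (1 / (2 * (n : ℝ))) = 1 / n := by field_simp
      linarith
    have h3 : ‖1 + u * y ^ n‖ ≤ 1 - 2 * Real.log (2 * n) / n := by
      have h4 : 1 + u * y ^ n = (1 + u) + u * (y ^ n - 1) := by ring
      rw [h4]
      refine (norm_add_le _ _).trans ?_
      rw [norm_mul]
      have h5 : ‖u‖ * ‖y ^ n - 1‖ ≤ 2 * (1 / n) :=
        mul_le_mul hρ2 (h1.trans h2) (norm_nonneg _) (by norm_num)
      have h6 : (2 + 2 * Real.log (2 * n)) / n = 2 * (1 / n) + 2 * Real.log (2 * n) / n := by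
        ring
      rw [h6] at h
      linarith
    have h4 : ‖1 + u * y ^ n‖ ^ n ≤ 1 / (4 * n ^ 2) := by
      have h5 : ‖1 + u * y ^ n‖ ≤ Real.exp (-(2 * Real.log (2 * n) / n)) := by
        refine h3.trans ?_
        have := Real.add_one_le_exp (-(2 * Real.log (2 * n) / n))
        linarith
      calc ‖1 + u * y ^ n‖ ^ n ≤ (Real.exp (-(2 * Real.log (2 * n) / n))) ^ n :=
            pow_le_pow_left₀ (norm_nonneg _) h5 n
        _ = Real.exp (-(2 * Real.log (2 * n))) := by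
            rw [← Real.exp_nat_mul]
            congr 1
            field_simp
        _ = 1 / (4 * n ^ 2) := by
            have h6 : -(2 * Real.log (2 * n)) = Real.log (1 / (4 * n ^ 2)) := by
              rw [one_div, Real.log_inv]
              have h7 : (4 * (n : ℝ) ^ 2) = (2 * n) ^ 2 := by ring
              rw [h7, Real.log_pow]
              norm_num
            rw [h6, Real.exp_log (by positivity)]
    have h5 : (1 + u * (1 + u * y ^ n) ^ n) - 1 = u * (1 + u * y ^ n) ^ n := by ring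
    rw [h5, norm_mul, norm_pow (1 + u * y ^ n) n]
    calc ‖u‖ * ‖1 + u * y ^ n‖ ^ n ≤ 2 * (1 / (4 * n ^ 2)) :=
          mul_le_mul hρ2 h4 (by positivity) (by norm_num)
      _ = δ := by
          rw [hδ]
          field_simp
          norm_num
  have hodd : ∀ j : ℕ, ∃ y : ℂ, ‖y - 1‖ ≤ δ ∧
      (fun z : ℂ => z ^ n + c)^[2 * j + 1] 0 = c * y := by
    intro j
    induction j with
    | zero =>
      refine ⟨1, by simpa using hδ0.le, ?_⟩
      have h5 : n ≠ 0 := by omega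
      simp [zero_pow h5]
    | succ j ih =>
      obtain ⟨y, hy, hy2⟩ := ih
      refine ⟨1 + u * (1 + u * y ^ n) ^ n, htrip y hy, ?_⟩
      have h1 : 2 * (j + 1) + 1 = 2 * j + 1 + 1 + 1 := by ring
      rw [h1, Function.iterate_succ_apply', Function.iterate_succ_apply', hy2]
      simp only [hcn]
  refine mem_of_bounded (r * (1 + δ)) ?_
  rw [Filter.frequently_atTop]
  intro N
  obtain ⟨y, hy, hy2⟩ := hodd N
  refine ⟨2 * N + 1, by omega, ?_⟩
  rw [hy2, norm_mul]
  refine mul_le_mul_of_nonneg_left ?_ hr0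
  have h4 : y = (y - 1) + 1 := by ring
  rw [h4]
  refine (norm_add_le _ _).trans ?_
  rw [norm_one]
  linarith

/-- The undecided parameters. -/
def Bad (n : ℕ) : Set ℂ :=
  {c | 1 ≤ 3 * (n : ℝ) * ‖c‖ ^ (n - 1) ∧ 1 - (2 + 2 * Real.log (2 * n)) / n ≤ ‖1 + c ^ (n - 1)‖ ∧
    (‖1 + c ^ (n - 1)‖ ≤ 1 ∨ ‖c‖ ^ (n - 1) * ‖1 + c ^ (n - 1)‖ ^ (n - 1) ≤ 2)}

lemma frontier_subset_bad {n : ℕ} (hn : 2 ≤ n) : frontier (multibrotSet n) ⊆ Bad n := by
  intro c hc
  have hopen1 : IsOpen {c : ℂ | 3 * (n : ℝ) * ‖c‖ ^ (n - 1) < 1} :=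
    isOpen_lt (by fun_prop) continuous_const
  have hopen2 : IsOpen {c : ℂ | ‖1 + c ^ (n - 1)‖ < 1 - (2 + 2 * Real.log (2 * n)) / n} :=
    isOpen_lt (by fun_prop) continuous_const
  have hopen3 : IsOpen {c : ℂ | 1 < ‖1 + c ^ (n - 1)‖} := isOpen_lt continuous_const (by fun_prop)
  have hopen4 : IsOpen {c : ℂ | 2 < ‖c‖ ^ (n - 1) * ‖1 + c ^ (n - 1)‖ ^ (n - 1)} :=
    isOpen_lt continuous_const (by fun_prop)
  have hint : c ∉ interior (multibrotSet n) := hc.2
  refine ⟨?_, ?_, ?_⟩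
  · by_contra h
    push Not at h
    apply hint
    exact mem_interior.2 ⟨_, fun x hx => mem_of_small hn hx, hopen1, h⟩
  · by_contra h
    push Not at h
    apply hint
    exact mem_interior.2 ⟨_, fun x hx => mem_of_left hn hx, hopen2, h⟩
  · by_contra h
    push Not at h
    have h1 : c ∈ {c : ℂ | 1 < ‖1 + c ^ (n - 1)‖} ∩
        {c : ℂ | 2 < ‖c‖ ^ (n - 1) * ‖1 + c ^ (n - 1)‖ ^ (n - 1)} := h
    have h2 := mem_closure_iff.1 hc.1 _ (hopen3.inter hopen4) h1
    obtain ⟨x, hx1, hx2⟩ := h2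
    exact not_mem_of_escape hn hx1.1 hx1.2 hx2

end Pool.Agent.W_1365a2_h11
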