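import Mathlib
import Pool.Agent.W_1365a2_h11.Dyn

set_option autoImplicit false

/-!
# Area of the boundary of the Multibrot sets: the undecided parameters in polar coordinates
-/

namespace Pool.Agent.W_1365a2_h11

open Real

lemma normSq_one_add {m : ℕ} {r θ : ℝ} :
    ‖(1 : ℂ) + ((r : ℂ) * (Complex.cos θ + Complex.sin θ * Complex.I)) ^ m‖ ^ 2 =
      1 + 2 * (r ^ m) * (cos (m * θ) + r ^ m / 2) := by
  have h1 : ((r : ℂ) * (Complex.cos θ + Complex.sin θ * Complex.I)) ^ m =
      ((r ^ m * cos (m * θ) : ℝ) : ℂ) + ((r ^ m * sin (m * θ) : ℝ) : ℂ) * Complex.I := by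
    rw [mul_pow, Complex.cos_add_sin_mul_I_pow]
    push_cast
    ring
  rw [h1, ← Complex.normSq_eq_norm_sq, Complex.normSq_apply]
  simp only [Complex.add_re, Complex.one_re, Complex.ofReal_re, Complex.mul_re, Complex.I_re,
    mul_zero, Complex.ofReal_im, Complex.I_im, Complex.add_im, Complex.one_im, Complex.mul_im]
  have h2 := Real.sin_sq_add_cos_sq (m * θ)
  have h3 : sin (m * θ) ^ 2 = 1 - cos (m * θ) ^ 2 := by linarith
  ring_nf
  rw [h3]
  ring

/-- Undecided parameters in polar coordinates. -/
lemma bad_polar {n : ℕ} (hn : 2 ≤ n) {r θ : ℝ} (hr : 0 < r)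
    (h : ((r : ℂ) * (Complex.cos θ + Complex.sin θ * Complex.I)) ∈ Bad n) :
    1 ≤ 3 * (n : ℝ) * r ^ (n - 1) ∧ r ≤ 2 ∧
      |cos ((n - 1 : ℕ) * θ) + r ^ (n - 1) / 2| ≤ 18 * log (6 * n) / (n * r ^ (n - 1)) := by
  have hn1 : (2 : ℝ) ≤ n := by exact_mod_cast hn
  have hn0 : (0 : ℝ) < n := by linarith
  obtain ⟨h1, h2, h3⟩ := h
  set m := n - 1 with hm
  have hm1 : 1 ≤ m := by omega
  have hmn : (m : ℝ) = n - 1 := by
    rw [hm, Nat.cast_sub (by omega)]
    simp
  have hm0 : (0 : ℝ) < m := by rw [hmn]; linarith
  set c : ℂ := (r : ℂ) * (Complex.cos θ + Complex.sin θ * Complex.I) with hc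
  have hcn : ‖c‖ = r := by
    have h4 : Complex.cos θ + Complex.sin θ * Complex.I = Complex.exp (θ * Complex.I) := by
      rw [Complex.exp_mul_I]
    rw [hc, norm_mul, h4, Complex.norm_exp_ofReal_mul_I, mul_one, Complex.norm_real,
      Real.norm_of_nonneg hr.le]
  rw [hcn] at h1 h3
  set ρ := r ^ m with hρ
  have hρ0 : 0 < ρ := by positivity
  set N := ‖1 + c ^ m‖ with hN
  have hN0 : 0 ≤ N := norm_nonneg _
  set κ := cos (m * θ) + ρ / 2 with hκ
  have hsq : N ^ 2 = 1 + 2 * ρ * κ := normSq_one_add
  have hnorm : ρ - 1 ≤ N := by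
    have h4 : ‖c ^ m‖ - ‖(1 : ℂ)‖ ≤ ‖c ^ m + 1‖ := by
      have := norm_sub_norm_le (c ^ m) (-1)
      simpa using this
    rw [norm_one, add_comm (c ^ m) 1, norm_pow, hcn] at h4
    exact h4
  have hρ2 : ρ ≤ 2 := by
    by_contra hcon
    push Not at hcon
    have hN1 : 1 < N := by linarith
    rcases h3 with h3 | h3
    · linarith
    · have h4 : 1 ≤ N ^ m := one_le_pow₀ hN1.le
      nlinarith
  refine ⟨h1, ?_, ?_⟩
  · by_contra hcon
    push Not at hcon
    have h4 : r ≤ r ^ m := by
      calc r = r ^ 1 := (pow_one r).symm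
        _ ≤ r ^ m := pow_le_pow_right₀ (by linarith) hm1
    linarith
  · have hL6 : 2 ≤ log (6 * n) := by
      have h5 : (2 : ℝ) ≤ log 12 := by
        rw [Real.le_log_iff_exp_le (by norm_num)]
        have h6 := Real.exp_one_lt_d9
        have h7 : Real.exp 2 = Real.exp 1 ^ 2 := by
          rw [← Real.exp_nat_mul]
          norm_num
        rw [h7]
        have h8 := Real.exp_pos 1
        nlinarith
      exact h5.trans (Real.log_le_log (by norm_num) (by linarith))
    have hL2 : log (2 * n) ≤ log (6 * n) := Real.log_le_log (by linarith) (by linarith)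
    have hnρ : 0 < (n : ℝ) * ρ := by positivity
    rw [abs_le]
    constructor
    · -- lower bound
      rcases le_or_gt 0 κ with hk | hk
      · refine le_trans ?_ hk
        have : 0 ≤ 18 * log (6 * n) / (n * ρ) := by positivity
        linarith
      · have h5 : 0 ≤ 1 + 2 * ρ * κ := by rw [← hsq]; positivity
        have h6 : N ≤ 1 + ρ * κ := by
          have h7 : 0 ≤ 1 + ρ * κ := by nlinarith
          rw [← pow_le_pow_iff_left₀ hN0 h7 (two_ne_zero), hsq]
          nlinarith [sq_nonneg (ρ * κ)]
        have h8 : -((2 + 2 * log (2 * n)) / n) ≤ ρ * κ := by linarith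
        have h9 : -(18 * log (6 * n) / (n * ρ)) ≤ κ := by
          rw [neg_le, le_div_iff₀ hnρ]
          have h10 : -(ρ * κ) ≤ (2 + 2 * log (2 * n)) / n := by linarith
          rw [le_div_iff₀ hn0] at h10
          nlinarith
        exact h9
    · -- upper bound
      rcases le_or_gt κ 0 with hk | hk
      · refine hk.trans ?_
        positivity
      · have h5 : 1 < N ^ 2 := by
          rw [hsq]
          have : 0 < ρ * κ := by positivity
          nlinarith
        have h6 : 1 < N := by
          by_contra hcon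
          push Not at hcon
          nlinarith
        have h7 : ρ * N ^ m ≤ 2 := by
          rcases h3 with h3 | h3
          · exact absurd h3 (not_le.2 h6)
          · exact h3
        have h8 : log ρ + m * log N ≤ log 2 := by
          have h9 : log (ρ * N ^ m) ≤ log 2 := Real.log_le_log (by positivity) h7
          rwa [Real.log_mul hρ0.ne' (by positivity), Real.log_pow N m] at h9
        have h10 : -log (3 * n) ≤ log ρ := by
          rw [← Real.log_inv]
          refine Real.log_le_log (by positivity) ?_
          rw [inv_le_iff_one_le_mul₀ (by positivity)]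
          linarith
        have h11 : log (6 * n) = log 2 + log (3 * n) := by
          rw [← Real.log_mul (by norm_num) (by positivity)]
          congr 1
          ring
        have h12 : m * log N ≤ log (6 * n) := by linarith
        have hκ2 : κ ≤ 2 := by
          have := Real.cos_le_one (m * θ)
          rw [hκ]
          linarith
        have h13 : ρ * κ / 9 ≤ log N := by
          have h14 : 2 * log N = log (N ^ 2) := by
            rw [Real.log_pow]
            norm_num
          have h15 : 1 - (N ^ 2)⁻¹ ≤ log (N ^ 2) :=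
            Real.one_sub_inv_le_log_of_pos (by positivity)
          have h16 : N ^ 2 ≤ 9 := by
            rw [hsq]
            nlinarith
          have h17 : 2 * (ρ * κ) / 9 ≤ 1 - (N ^ 2)⁻¹ := by
            have h18 : 1 - (N ^ 2)⁻¹ = (N ^ 2 - 1) / N ^ 2 := by field_simp
            rw [h18, hsq, div_le_div_iff₀ (by norm_num) (by rw [← hsq]; positivity)]
            rw [hsq] at h16
            have h19 : 0 < ρ * κ := by positivity
            nlinarith
          linarith
        rw [le_div_iff₀ hnρ]
        have h20 : m * (ρ * κ / 9) ≤ log (6 * n) :=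
          (mul_le_mul_of_nonneg_left h13 hm0.le).trans h12
        have h21 : (n : ℝ) ≤ 2 * m := by rw [hmn]; linarith
        have h22 : 0 < ρ * κ := by positivity
        have h23 : κ * (n * ρ) = n * (ρ * κ) := by ring
        have h24 : (n : ℝ) * (ρ * κ) ≤ 2 * m * (ρ * κ) := mul_le_mul_of_nonneg_right h21 h22.le
        rw [h23]
        linarith

end Pool.Agent.W_1365a2_h11
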