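import Mathlib
import Pool.Agent.W_1365a2_h11.Geo

set_option autoImplicit false

/-!
# Area of the boundary of the Multibrot sets: the normalised critical orbit

With `u = c^(n-1)` and `z_k = c y_k` the critical orbit becomes `y_0 = 1`, `y_(k+1) = 1 + u y_k^n`.
Put `v_k = n (y_k - 1)`, so that `v_1 = n u` and `v_(k+1) = n u y_k^n`.
-/

namespace Pool.Agent.W_1365a2_h11

open Filter Topology Bornology N62a1eb23

/-- The normalised critical orbit. -/
noncomputable def Y (n : ℕ) (c : ℂ) : ℕ → ℂ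
  | 0 => 1
  | k + 1 => 1 + c ^ (n - 1) * (Y n c k) ^ n

/-- `v_k = n (y_k - 1)`. -/
noncomputable def W (n : ℕ) (c : ℂ) (k : ℕ) : ℂ := n * (Y n c k - 1)

lemma Y_zero (n : ℕ) (c : ℂ) : Y n c 0 = 1 := rfl

lemma Y_succ (n : ℕ) (c : ℂ) (k : ℕ) : Y n c (k + 1) = 1 + c ^ (n - 1) * (Y n c k) ^ n := rfl

lemma W_succ (n : ℕ) (c : ℂ) (k : ℕ) : W n c (k + 1) = n * c ^ (n - 1) * (Y n c k) ^ n := by
  unfold W
  rw [Y_succ]
  ring

lemma W_one (n : ℕ) (c : ℂ) : W n c 1 = n * c ^ (n - 1) := by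
  rw [W_succ, Y_zero, one_pow, mul_one]

lemma Y_eq {n : ℕ} (hn : n ≠ 0) (c : ℂ) (k : ℕ) : Y n c k = 1 + W n c k / n := by
  unfold W
  have : (n : ℂ) ≠ 0 := Nat.cast_ne_zero.2 hn
  field_simp
  ring

lemma norm_W_succ (n : ℕ) (c : ℂ) (k : ℕ) :
    ‖W n c (k + 1)‖ = n * ‖c‖ ^ (n - 1) * ‖Y n c k‖ ^ n := by
  rw [W_succ, norm_mul, norm_mul, norm_pow, norm_pow, Complex.norm_natCast]

lemma norm_W_one (n : ℕ) (c : ℂ) : ‖W n c 1‖ = n * ‖c‖ ^ (n - 1) := by
  rw [norm_W_succ, Y_zero, norm_one, one_pow, mul_one]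

lemma continuous_Y (n k : ℕ) : Continuous fun c => Y n c k := by
  induction k with
  | zero => exact continuous_const
  | succ k ih =>
    simp only [Y_succ]
    fun_prop

lemma continuous_W (n k : ℕ) : Continuous fun c => W n c k := by
  have := continuous_Y n k
  unfold W
  fun_prop

lemma step_eq {n : ℕ} (hn : 2 ≤ n) (c y : ℂ) :
    (c * y) ^ n + c = c * (1 + c ^ (n - 1) * y ^ n) := by
  have h4 : c ^ n = c * c ^ (n - 1) := by
    rw [← pow_succ']
    congr 1
    omega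
  rw [mul_pow, h4]
  ring

lemma iterate_eq {n : ℕ} (hn : 2 ≤ n) (c : ℂ) (k : ℕ) :
    (fun z : ℂ => z ^ n + c)^[k + 1] 0 = c * Y n c k := by
  induction k with
  | zero =>
    have h5 : n ≠ 0 := by omega
    simp [zero_pow h5, Y_zero]
  | succ k ih =>
    rw [Function.iterate_succ_apply', ih, Y_succ]
    exact step_eq hn c _

/-- Escape at step `k`. -/
lemma not_mem_of_escape_step {n : ℕ} (hn : 2 ≤ n) {c : ℂ} (hc0 : c ≠ 0) {k : ℕ}
    (h1 : 1 < ‖Y n c k‖) (h2 : 2 < ‖c‖ ^ (n - 1) * ‖Y n c k‖ ^ (n - 1)) :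
    c ∉ multibrotSet n := by
  intro hc
  apply hc
  have h4 : Tendsto (fun j => (fun w : ℂ => w ^ n + c)^[j] (c * Y n c k)) atTop
      (cobounded ℂ) := by
    apply escape_orbit hn
    · rw [norm_mul]
      have : 0 < ‖c‖ := norm_pos_iff.2 hc0
      nlinarith
    · rw [norm_mul, mul_pow]
      exact h2.le
  rw [← iterate_eq hn] at h4
  have h5 : (fun j => (fun w : ℂ => w ^ n + c)^[j] ((fun z : ℂ => z ^ n + c)^[k + 1] 0)) =
      fun j => (fun w : ℂ => w ^ n + c)^[j + (k + 1)] 0 := by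
    funext j
    exact (Function.iterate_add_apply _ _ _ _).symm
  rw [h5] at h4
  exact (tendsto_add_atTop_iff_nat (k + 1)).1 h4

/-- The product `∏_{j=1}^k 2 |v_j|`. -/
noncomputable def Pr (n : ℕ) (c : ℂ) (k : ℕ) : ℝ := ∏ j ∈ Finset.range k, (2 * ‖W n c (j + 1)‖)

lemma Pr_succ (n : ℕ) (c : ℂ) (k : ℕ) : Pr n c (k + 1) = Pr n c k * (2 * ‖W n c (k + 1)‖) := by
  unfold Pr
  rw [Finset.prod_range_succ]

lemma norm_pow_sub_one_le {n : ℕ} {y : ℂ} {δ : ℝ} (hy : ‖y - 1‖ ≤ δ) :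
    ‖y ^ n - 1‖ ≤ (1 + δ) ^ n - 1 := by
  have hδ0 : 0 ≤ δ := (norm_nonneg _).trans hy
  have h2 : y ^ n - 1 = (y - 1) * ∑ i ∈ Finset.range n, y ^ i := by
    rw [mul_comm]
    exact (geom_sum_mul y n).symm
  have h3 : (1 + δ) ^ n - 1 = δ * ∑ i ∈ Finset.range n, (1 + δ) ^ i := by
    have := geom_sum_mul (1 + δ) n
    rw [← this]
    ring
  have hy1 : ‖y‖ ≤ 1 + δ := by
    have h4 : y = (y - 1) + 1 := by ring
    rw [h4]
    refine (norm_add_le _ _).trans ?_
    rw [norm_one]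
    linarith
  rw [h2, h3, norm_mul]
  refine mul_le_mul hy ?_ (norm_nonneg _) hδ0
  refine (norm_sum_le _ _).trans (Finset.sum_le_sum fun i _ => ?_)
  rw [norm_pow]
  exact pow_le_pow_left₀ (norm_nonneg _) hy1 i

lemma iterate_mul {n : ℕ} (hn : 2 ≤ n) (c y : ℂ) (i : ℕ) :
    (fun z : ℂ => z ^ n + c)^[i] (c * y) = c * (fun w : ℂ => 1 + c ^ (n - 1) * w ^ n)^[i] y := by
  induction i with
  | zero => rfl
  | succ i ih =>
    rw [Function.iterate_succ_apply', Function.iterate_succ_apply', ih]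
    exact step_eq hn c _

/-- Attracting cycles: if `|y_j| ≥ 1` and `|v_(j+1)| ≥ 1` for `j < k` and `y_k` is small enough, then
`c` belongs to the Multibrot set. -/
lemma mem_of_left_step {n : ℕ} (hn : 2 ≤ n) {c : ℂ} {k : ℕ}
    (h1 : ∀ j < k, 1 ≤ ‖Y n c j‖) (hW : ∀ j < k, 1 ≤ ‖W n c (j + 1)‖)
    (hs : 0 < ‖c‖)
    (h : ‖Y n c k‖ ≤ 1 - (1 + Real.log (n * ‖c‖ ^ (n - 1) * Pr n c k)) / n) :
    c ∈ multibrotSet n := by
  have hn1 : (2 : ℝ) ≤ n := by exact_mod_cast hn
  have hn0 : (0 : ℝ) < n := by linarith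
  have hPpos : ∀ j ≤ k, 1 ≤ Pr n c j := by
    intro j hj
    induction j with
    | zero => simp [Pr]
    | succ j ih =>
      rw [Pr_succ]
      have a1 := ih (by omega)
      have a2 := hW j (by omega)
      nlinarith
  have hPle : ∀ d ≤ k, Pr n c (k - d) ≤ Pr n c k := by
    intro d hd
    induction d with
    | zero => exact le_rfl
    | succ d ih =>
      refine le_trans ?_ (ih (by omega))
      have e1 : k - d = (k - (d + 1)) + 1 := by omega
      rw [e1, Pr_succ]
      have a1 := hPpos (k - (d + 1)) (by omega)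
      have a2 := hW (k - (d + 1)) (by omega)
      nlinarith
  set P := Pr n c k with hP
  have hP1 : 1 ≤ P := hPpos k le_rfl
  set δ : ℝ := 1 / (n * P) with hδ
  have hδ0 : 0 < δ := by positivity
  have hδP : δ * P = 1 / n := by
    rw [hδ]
    field_simp
  set g : ℂ → ℂ := fun w : ℂ => 1 + c ^ (n - 1) * w ^ n with hg
  have hclose : ∀ y : ℂ, ‖y - 1‖ ≤ δ → ∀ j ≤ k, ‖g^[j] y - Y n c j‖ ≤ δ * Pr n c j := by
    intro y hy j hj
    induction j with
    | zero => simpa [Pr, Y_zero] using hy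
    | succ j ih =>
      have ih1 := ih (by omega)
      rw [Function.iterate_succ_apply']
      set b := g^[j] y with hb
      set a := Y n c j with ha
      have ha1 : 1 ≤ ‖a‖ := h1 j (by omega)
      have ha0 : a ≠ 0 := by
        rw [← norm_pos_iff]
        linarith
      set d := δ * Pr n c j with hd
      have hd0 : 0 ≤ d := (norm_nonneg _).trans ih1
      have hnd : (n : ℝ) * d ≤ 1 := by
        have a3 := hPle (k - j) (by omega)
        have e2 : k - (k - j) = j := by omega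
        rw [e2] at a3
        have a4 : d ≤ δ * P := mul_le_mul_of_nonneg_left a3 hδ0.le
        rw [hδP, le_div_iff₀ hn0] at a4
        linarith
      have hq : ‖b / a - 1‖ ≤ d := by
        have e3 : b / a - 1 = (b - a) / a := by field_simp
        rw [e3, norm_div]
        exact (div_le_self (norm_nonneg _) ha1).trans ih1
      have h2 := norm_pow_sub_one_le (n := n) hq
      have h3 := pow_one_add_le (n := n) hd0 hnd
      have h4 : ‖(b / a) ^ n - 1‖ ≤ 2 * (n * d) := by linarith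
      have h5 : g b - Y n c (j + 1) = c ^ (n - 1) * a ^ n * ((b / a) ^ n - 1) := by
        rw [hg, Y_succ, ← ha, div_pow]
        field_simp
        ring
      rw [h5, norm_mul, norm_mul, norm_pow, norm_pow, Pr_succ, norm_W_succ, ← ha]
      calc ‖c‖ ^ (n - 1) * ‖a‖ ^ n * ‖(b / a) ^ n - 1‖
          ≤ ‖c‖ ^ (n - 1) * ‖a‖ ^ n * (2 * (n * d)) :=
            mul_le_mul_of_nonneg_left h4 (by positivity)
        _ = δ * (Pr n c j * (2 * (n * ‖c‖ ^ (n - 1) * ‖a‖ ^ n))) := by
            rw [hd]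
            ring
  have hret : ∀ y : ℂ, ‖y - 1‖ ≤ δ → ‖g^[k + 1] y - 1‖ ≤ δ := by
    intro y hy
    rw [Function.iterate_succ_apply']
    have h2 := hclose y hy k le_rfl
    rw [← hP, hδP] at h2
    set b := g^[k] y with hb
    set s : ℝ := n * ‖c‖ ^ (n - 1) with hs'
    have hs0 : 0 < s := by positivity
    have h3 : ‖b‖ ≤ 1 - Real.log (s * P) / n := by
      have h4 : b = (b - Y n c k) + Y n c k := by ring
      rw [h4]
      refine (norm_add_le _ _).trans ?_
      have e4 : (1 + Real.log (s * P)) / n = 1 / n + Real.log (s * P) / n := by ring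
      rw [e4] at h
      linarith
    have h5 : ‖b‖ ^ n ≤ 1 / (s * P) := by
      have h6 : ‖b‖ ≤ Real.exp (-(Real.log (s * P) / n)) := by
        refine h3.trans ?_
        have := Real.add_one_le_exp (-(Real.log (s * P) / n))
        linarith
      calc ‖b‖ ^ n ≤ (Real.exp (-(Real.log (s * P) / n))) ^ n :=
            pow_le_pow_left₀ (norm_nonneg _) h6 n
        _ = Real.exp (-(Real.log (s * P))) := by
            rw [← Real.exp_nat_mul]
            congr 1
            field_simp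
        _ = 1 / (s * P) := by
            rw [Real.exp_neg, Real.exp_log (by positivity), one_div]
    have h6 : g b - 1 = c ^ (n - 1) * b ^ n := by
      rw [hg]
      ring
    rw [h6, norm_mul, norm_pow, norm_pow]
    calc ‖c‖ ^ (n - 1) * ‖b‖ ^ n ≤ ‖c‖ ^ (n - 1) * (1 / (s * P)) :=
          mul_le_mul_of_nonneg_left h5 (by positivity)
      _ = δ := by
          rw [hδ, hs']
          field_simp
  have hodd : ∀ j : ℕ, ∃ y : ℂ, ‖y - 1‖ ≤ δ ∧
      (fun z : ℂ => z ^ n + c)^[(k + 1) * j + 1] 0 = c * y := by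
    intro j
    induction j with
    | zero =>
      refine ⟨1, by simpa using hδ0.le, ?_⟩
      rw [mul_zero, iterate_eq hn, Y_zero]
    | succ j ih =>
      obtain ⟨y, hy, hy2⟩ := ih
      refine ⟨g^[k + 1] y, hret y hy, ?_⟩
      have e1 : (k + 1) * (j + 1) + 1 = (k + 1) + ((k + 1) * j + 1) := by ring
      rw [e1, Function.iterate_add_apply, hy2]
      exact iterate_mul hn c y (k + 1)
  refine mem_of_bounded (‖c‖ * (1 + δ)) ?_
  rw [Filter.frequently_atTop]
  intro N
  obtain ⟨y, hy, hy2⟩ := hodd N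
  refine ⟨(k + 1) * N + 1, by nlinarith [Nat.zero_le (k * N)], ?_⟩
  rw [hy2, norm_mul]
  refine mul_le_mul_of_nonneg_left ?_ hs.le
  have h4 : y = (y - 1) + 1 := by ring
  rw [h4]
  refine (norm_add_le _ _).trans ?_
  rw [norm_one]
  linarith

end Pool.Agent.W_1365a2_h11
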