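import Mathlib
import Pool.Agent.W_1365a2_h11.Seq

set_option autoImplicit false

/-!
# Area of the boundary of the Multibrot sets: classification of the boundary points
-/

namespace Pool.Agent.W_1365a2_h11

open Filter Topology Bornology N62a1eb23

/-- `y_j` is large, but the orbit has not escaped. -/
def Rt (n : ℕ) (c : ℂ) (j : ℕ) : Prop := 4 * ‖W n c j‖ ^ 3 ≤ ‖Y n c j‖ ^ n ∧ ‖Y n c j‖ ≤ 2

/-- `|1 + v / n|` is close to `1`. -/
def Md (n : ℕ) (v : ℂ) : Prop :=
  |v.re / ‖v‖ + ‖v‖ / (2 * n)| ≤ 25 * (1 + Real.log (4 * ‖v‖ ^ 3)) / ‖v‖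

/-- Parameters which are undecided at step `k`. -/
def EE (n k : ℕ) : Set ℂ :=
  {c | 400 ≤ n * ‖c‖ ^ (n - 1) ∧ ‖c‖ ^ (n - 1) ≤ 2 ∧ (∀ j, 1 ≤ j → j < k → Rt n c j) ∧
    ‖W n c k‖ ≤ 4 * n ∧ Md n (W n c k)}

lemma grow {n : ℕ} {c : ℂ} {k : ℕ} (hs : 400 ≤ n * ‖c‖ ^ (n - 1))
    (hR : ∀ j, 1 ≤ j → j < k → 4 * ‖W n c j‖ ^ 3 ≤ ‖Y n c j‖ ^ n) :
    ∀ j, 1 ≤ j → j ≤ k → 2 ^ (j - 1) * (n * ‖c‖ ^ (n - 1)) ≤ ‖W n c j‖ := by
  intro j hj
  induction j, hj using Nat.le_induction with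
  | base => intro _; rw [norm_W_one]; simp
  | succ j hj ih =>
    intro hjk
    have h1 := ih (by omega)
    have h2 := hR j hj (by omega)
    set s : ℝ := n * ‖c‖ ^ (n - 1) with hs'
    have e1 : j + 1 - 1 = (j - 1) + 1 := by omega
    rw [norm_W_succ, ← hs', e1, pow_succ]
    have h3 : (1 : ℝ) ≤ 2 ^ (j - 1) := one_le_pow₀ (by norm_num)
    have h4 : s ≤ ‖W n c j‖ := by nlinarith
    have h5 : 400 ≤ ‖W n c j‖ := by linarith
    have h6 : 2 * ‖W n c j‖ ≤ 4 * ‖W n c j‖ ^ 3 := by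
      have : 1 ≤ ‖W n c j‖ ^ 2 := by nlinarith
      nlinarith
    calc 2 ^ (j - 1) * 2 * s = 2 * (2 ^ (j - 1) * s) := by ring
      _ ≤ 2 * ‖W n c j‖ := by linarith
      _ ≤ 4 * ‖W n c j‖ ^ 3 := h6
      _ ≤ ‖Y n c j‖ ^ n := h2
      _ = 1 * ‖Y n c j‖ ^ n := (one_mul _).symm
      _ ≤ s * ‖Y n c j‖ ^ n := mul_le_mul_of_nonneg_right (by linarith) (by positivity)

lemma le_W {n : ℕ} {c : ℂ} {k : ℕ} (hs : 400 ≤ n * ‖c‖ ^ (n - 1))
    (hR : ∀ j, 1 ≤ j → j < k → 4 * ‖W n c j‖ ^ 3 ≤ ‖Y n c j‖ ^ n) {j : ℕ} (hj : 1 ≤ j)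
    (hjk : j ≤ k) : n * ‖c‖ ^ (n - 1) ≤ ‖W n c j‖ := by
  have h1 := grow hs hR j hj hjk
  have h3 : (1 : ℝ) ≤ 2 ^ (j - 1) := one_le_pow₀ (by norm_num)
  nlinarith

lemma one_lt_Y {n : ℕ} (_hn : 2 ≤ n) {c : ℂ} {k : ℕ} (hs : 400 ≤ n * ‖c‖ ^ (n - 1))
    (hR : ∀ j, 1 ≤ j → j < k → 4 * ‖W n c j‖ ^ 3 ≤ ‖Y n c j‖ ^ n) {j : ℕ} (hj : 1 ≤ j)
    (hjk : j < k) : 1 < ‖Y n c j‖ := by
  have h1 := le_W hs hR hj hjk.le
  have h2 := hR j hj hjk
  by_contra hcon
  push Not at hcon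
  have h3 : ‖Y n c j‖ ^ n ≤ 1 := pow_le_one₀ (norm_nonneg _) hcon
  have h4 : 400 ≤ ‖W n c j‖ := by linarith
  have h5 : 1 ≤ ‖W n c j‖ ^ 3 := one_le_pow₀ (by linarith)
  linarith

lemma Pr_le {n : ℕ} {c : ℂ} {k : ℕ} (hs : 400 ≤ n * ‖c‖ ^ (n - 1))
    (hR : ∀ j, 1 ≤ j → j < k → 4 * ‖W n c j‖ ^ 3 ≤ ‖Y n c j‖ ^ n) :
    ∀ j, 1 ≤ j → j ≤ k → Pr n c j ≤ (2 * ‖W n c j‖) ^ 2 := by
  intro j hj
  induction j, hj using Nat.le_induction with
  | base =>
    intro h
    have h1 := le_W hs hR le_rfl h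
    have e : Pr n c 1 = 2 * ‖W n c 1‖ := by simp [Pr]
    rw [e]
    nlinarith
  | succ j hj ih =>
    intro hjk
    have h1 := ih (by omega)
    have h2 := hR j hj (by omega)
    have h3 := le_W hs hR hj (by omega : j ≤ k)
    have h5 : 400 ≤ ‖W n c j‖ := by linarith
    have h6 : (2 * ‖W n c j‖) ^ 2 ≤ ‖W n c (j + 1)‖ := by
      rw [norm_W_succ]
      calc (2 * ‖W n c j‖) ^ 2 ≤ 4 * ‖W n c j‖ ^ 3 := by
            have : 0 ≤ ‖W n c j‖ ^ 2 := by positivity
            nlinarith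
        _ ≤ ‖Y n c j‖ ^ n := h2
        _ = 1 * ‖Y n c j‖ ^ n := (one_mul _).symm
        _ ≤ n * ‖c‖ ^ (n - 1) * ‖Y n c j‖ ^ n :=
            mul_le_mul_of_nonneg_right (by linarith) (by positivity)
    rw [Pr_succ]
    have h7 : 0 ≤ ‖W n c (j + 1)‖ := norm_nonneg _
    calc Pr n c j * (2 * ‖W n c (j + 1)‖)
        ≤ ‖W n c (j + 1)‖ * (2 * ‖W n c (j + 1)‖) :=
          mul_le_mul_of_nonneg_right (h1.trans h6) (by positivity)
      _ ≤ (2 * ‖W n c (j + 1)‖) ^ 2 := by nlinarith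

lemma not_escape_of_frontier {n : ℕ} (hn : 2 ≤ n) {c : ℂ} (hc0 : c ≠ 0)
    (hc : c ∈ frontier (multibrotSet n)) (k : ℕ) (h1 : 1 < ‖Y n c k‖) :
    ‖c‖ ^ (n - 1) * ‖Y n c k‖ ^ (n - 1) ≤ 2 := by
  by_contra h2
  push Not at h2
  have hY := continuous_Y n k
  have o1 : IsOpen {c : ℂ | 1 < ‖Y n c k‖} := isOpen_lt continuous_const (by fun_prop)
  have o2 : IsOpen {c : ℂ | 2 < ‖c‖ ^ (n - 1) * ‖Y n c k‖ ^ (n - 1)} :=
    isOpen_lt continuous_const (by fun_prop)
  have o3 : IsOpen {c : ℂ | c ≠ 0} := isOpen_ne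
  obtain ⟨x, ⟨⟨hx1, hx2⟩, hx3⟩, hx4⟩ :=
    mem_closure_iff.1 hc.1 _ ((o1.inter o2).inter o3) ⟨⟨h1, h2⟩, hc0⟩
  exact not_mem_of_escape_step hn hx3 hx1 hx2 hx4

lemma Y_le_two {n : ℕ} (hn : 2 ≤ n) {c : ℂ} (hs : 400 ≤ n * ‖c‖ ^ (n - 1)) {k : ℕ}
    (h1 : 1 < ‖Y n c k‖) (h2 : ‖c‖ ^ (n - 1) * ‖Y n c k‖ ^ (n - 1) ≤ 2) :
    ‖Y n c k‖ ≤ 2 ∧ ‖W n c (k + 1)‖ ≤ 4 * n := by
  have hn0 : (0 : ℝ) < n := by
    have : 0 < n := by omega
    exact_mod_cast this
  set ρ := ‖c‖ ^ (n - 1) with hρ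
  set N := ‖Y n c k‖ with hN
  have hNm : 0 < N ^ (n - 1) := by positivity
  have h3 : N ≤ 2 := by
    by_contra hcon
    push Not at hcon
    have h4 : (2 : ℝ) ^ (n - 1) ≤ N ^ (n - 1) := pow_le_pow_left₀ (by norm_num) hcon.le _
    have h5 : (n : ℝ) ≤ 2 ^ (n - 1) := by
      have h6 : n ≤ 2 ^ (n - 1) := by
        have := Nat.lt_two_pow_self (n := n - 1)
        omega
      exact_mod_cast h6
    have h7 : (n : ℝ) * ρ * N ^ (n - 1) ≤ 2 * n := by nlinarith
    have h8 : 400 * N ^ (n - 1) ≤ (n : ℝ) * ρ * N ^ (n - 1) :=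
      mul_le_mul_of_nonneg_right hs hNm.le
    linarith
  refine ⟨h3, ?_⟩
  rw [norm_W_succ, ← hρ, ← hN]
  have h4 : N ^ n = N ^ (n - 1) * N := by
    rw [← pow_succ]
    congr 1
    omega
  rw [h4]
  calc n * ρ * (N ^ (n - 1) * N) = n * (ρ * N ^ (n - 1)) * N := by ring
    _ ≤ n * 2 * 2 := by
        have h5 : 0 ≤ ρ * N ^ (n - 1) := by positivity
        exact mul_le_mul (mul_le_mul_of_nonneg_left h2 hn0.le) h3 (by linarith) (by positivity)
    _ = 4 * n := by ring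

/-- The analytic content of the two bounds for `y_k`. -/
lemma md_of_bounds {n : ℕ} (hn : 2 ≤ n) {v : ℂ} (hv : 400 ≤ ‖v‖) (hvn : ‖v‖ ≤ 4 * n)
    (h1 : 1 - (1 + Real.log (4 * ‖v‖ ^ 3)) / n ≤ ‖1 + v / n‖)
    (h2 : ‖1 + v / n‖ ^ n ≤ 4 * ‖v‖ ^ 3) : Md n v := by
  have hn1 : (2 : ℝ) ≤ n := by exact_mod_cast hn
  have hn0 : (0 : ℝ) < n := by linarith
  set V := ‖v‖ with hV
  have hV0 : 0 < V := by linarith
  set N := ‖1 + v / n‖ with hN
  have hN0 : 0 ≤ N := norm_nonneg _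
  set κ := v.re / V + V / (2 * n) with hκ
  have hsq : N ^ 2 = 1 + 2 * V / n * κ := by
    rw [hN, ← Complex.normSq_eq_norm_sq, Complex.normSq_apply]
    have e1 : (1 + v / (n : ℂ)).re = 1 + v.re / n := by
      simp [Complex.div_natCast_re]
    have e2 : (1 + v / (n : ℂ)).im = v.im / n := by
      simp [Complex.div_natCast_im]
    have e3 : V ^ 2 = v.re * v.re + v.im * v.im := by
      rw [hV, ← Complex.normSq_eq_norm_sq, Complex.normSq_apply]
    rw [e1, e2, hκ]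
    have e4 : 2 * V / n * (v.re / V + V / (2 * n)) = 2 * v.re / n + V ^ 2 / n ^ 2 := by
      field_simp
    rw [e4, e3]
    field_simp
    ring
  have hLpos : 0 ≤ Real.log (4 * V ^ 3) := Real.log_nonneg (by
    have : 1 ≤ V ^ 3 := one_le_pow₀ (by linarith)
    linarith)
  set Λ := 1 + Real.log (4 * V ^ 3) with hΛ
  have hVn : V / n ≤ 4 := by
    rw [div_le_iff₀ hn0]
    linarith
  have hVn0 : 0 < V / n := by positivity
  have e5 : 2 * V / n * κ = 2 * (V / n * κ) := by ring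
  rw [e5] at hsq
  have hfin : ∀ x : ℝ, x * V ≤ 25 * Λ → x ≤ 25 * Λ / V := by
    intro x hx
    rwa [le_div_iff₀ hV0]
  unfold Md
  rw [← hV, ← hκ, abs_le]
  constructor
  · rcases le_or_gt 0 κ with hk | hk
    · refine le_trans ?_ hk
      have : 0 ≤ 25 * Λ / V := by positivity
      linarith
    · have h5 : 0 ≤ 1 + 2 * (V / n * κ) := by rw [← hsq]; positivity
      have h6 : N ≤ 1 + V / n * κ := by
        have h7 : 0 ≤ 1 + V / n * κ := by nlinarith
        rw [← pow_le_pow_iff_left₀ hN0 h7 (two_ne_zero), hsq]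
        nlinarith [sq_nonneg (V / n * κ)]
      have h8 : -(Λ / n) ≤ V / n * κ := by linarith
      have h9 : -κ * V ≤ Λ := by
        have h10 : V / n * κ = (V * κ) / n := by ring
        rw [h10, neg_le, ← neg_div, div_le_div_iff_of_pos_right hn0] at h8
        linarith
      have := hfin (-κ) (by linarith)
      linarith
  · rcases le_or_gt κ 0 with hk | hk
    · refine hk.trans ?_
      positivity
    · apply hfin
      have h4 : 0 < V / n * κ := by positivity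
      have h5 : 1 < N ^ 2 := by
        rw [hsq]
        linarith
      have hNpos : 0 < N := by
        rcases hN0.lt_or_eq with h | h
        · exact h
        · rw [← h] at h5
          norm_num at h5
      have h8 : n * Real.log N ≤ Real.log (4 * V ^ 3) := by
        have h9 : Real.log (N ^ n) ≤ Real.log (4 * V ^ 3) := Real.log_le_log (by positivity) h2
        rwa [Real.log_pow N n] at h9
      have hκ3 : κ ≤ 3 := by
        have e7 : v.re / V ≤ 1 := by
          rw [div_le_one hV0]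
          exact Complex.re_le_norm v
        have e8 : V / (2 * n) ≤ 2 := by
          rw [div_le_iff₀ (by positivity)]
          linarith
        rw [hκ]
        linarith
      have h13 : (V / n * κ) / 25 ≤ Real.log N := by
        have h14 : 2 * Real.log N = Real.log (N ^ 2) := by
          rw [Real.log_pow]
          norm_num
        have h15 : 1 - (N ^ 2)⁻¹ ≤ Real.log (N ^ 2) :=
          Real.one_sub_inv_le_log_of_pos (by positivity)
        have h16 : N ^ 2 ≤ 25 := by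
          rw [hsq]
          have : V / n * κ ≤ 4 * 3 := mul_le_mul hVn hκ3 hk.le (by norm_num)
          linarith
        have h17 : 2 * (V / n * κ) / 25 ≤ 1 - (N ^ 2)⁻¹ := by
          have h18 : 1 - (N ^ 2)⁻¹ = (N ^ 2 - 1) / N ^ 2 := by field_simp
          have h19 : N ^ 2 - 1 = 2 * (V / n * κ) := by rw [hsq]; ring
          rw [h18, h19]
          exact div_le_div_of_nonneg_left (by positivity) (by positivity) h16
        linarith
      have h20 : n * (V / n * κ / 25) ≤ Λ := by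
        have := mul_le_mul_of_nonneg_left h13 hn0.le
        linarith
      have h21 : n * (V / n * κ / 25) = κ * V / 25 := by field_simp
      rw [h21] at h20
      linarith

/-- Classification of the boundary points. -/
lemma classify {n : ℕ} (hn : 2 ≤ n) {c : ℂ} (hc : c ∈ frontier (multibrotSet n))
    (hs : 400 ≤ n * ‖c‖ ^ (n - 1)) : ∃ k, 1 ≤ k ∧ c ∈ EE n k := by
  have hn1 : (2 : ℝ) ≤ n := by exact_mod_cast hn
  have hn0 : (0 : ℝ) < n := by linarith
  have hc0 : c ≠ 0 := by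
    rintro rfl
    have h3 : n - 1 ≠ 0 := by omega
    rw [norm_zero, zero_pow h3] at hs
    norm_num at hs
  have hcpos : 0 < ‖c‖ := norm_pos_iff.2 hc0
  have hne := not_escape_of_frontier hn hc0 hc
  have hρ2 : ‖c‖ ^ (n - 1) ≤ 2 := by
    by_contra hcon
    push Not at hcon
    have h1 : 1 < ‖Y n c 1‖ := by
      rw [Y_succ, Y_zero, one_pow, mul_one]
      have h2 : ‖c ^ (n - 1)‖ - ‖(1 : ℂ)‖ ≤ ‖c ^ (n - 1) + 1‖ := by
        have := norm_sub_norm_le (c ^ (n - 1)) (-1)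
        simpa using this
      rw [norm_one, norm_pow, add_comm (c ^ (n - 1)) 1] at h2
      linarith
    have h2 := hne 1 h1
    have h3 : 1 ≤ ‖Y n c 1‖ ^ (n - 1) := one_le_pow₀ h1.le
    nlinarith
  have hex : ∃ k, 1 ≤ k ∧ ¬ 4 * ‖W n c k‖ ^ 3 ≤ ‖Y n c k‖ ^ n := by
    by_contra hcon
    push Not at hcon
    have hg : ∀ k, 1 ≤ k → 2 ^ (k - 1) * (n * ‖c‖ ^ (n - 1)) ≤ ‖W n c k‖ := fun k hk =>
      grow (k := k + 1) hs (fun j hj _ => hcon j hj) k hk (by omega)
    obtain ⟨K, hK⟩ := pow_unbounded_of_one_lt (4 * (n : ℝ)) (one_lt_two)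
    have h1 : 1 < ‖Y n c (K + 1)‖ :=
      one_lt_Y hn (k := K + 2) hs (fun j hj _ => hcon j hj) (by omega) (by omega)
    have h2 := (Y_le_two hn hs h1 (hne _ h1)).2
    have h3 := hg (K + 1 + 1) (by omega)
    have e1 : K + 1 + 1 - 1 = K + 1 := by omega
    rw [e1, pow_succ] at h3
    nlinarith
  obtain ⟨hk1, hk2⟩ := Nat.find_spec hex
  set k := Nat.find hex with hk
  have hR : ∀ j, 1 ≤ j → j < k → 4 * ‖W n c j‖ ^ 3 ≤ ‖Y n c j‖ ^ n := by
    intro j hj hjk
    by_contra hcon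
    exact Nat.find_min hex hjk ⟨hj, hcon⟩
  have hWk : ‖W n c k‖ ≤ 4 * n := by
    rcases Nat.lt_or_ge 1 k with h | h
    · obtain ⟨j, hj⟩ : ∃ j, k = j + 1 := ⟨k - 1, by omega⟩
      have h1 := one_lt_Y hn hs hR (j := j) (by omega) (by omega)
      rw [hj]
      exact (Y_le_two hn hs h1 (hne _ h1)).2
    · have e : k = 1 := by omega
      rw [e, norm_W_one]
      nlinarith
  have hWs := le_W hs hR hk1 le_rfl
  refine ⟨k, hk1, hs, hρ2, ?_, hWk, ?_⟩
  · intro j hj hjk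
    have h1 := one_lt_Y hn hs hR hj hjk
    exact ⟨hR j hj hjk, (Y_le_two hn hs h1 (hne _ h1)).1⟩
  · have hYe : Y n c k = 1 + W n c k / n := Y_eq (by omega) c k
    have hPr : 0 < Pr n c k := by
      unfold Pr
      refine Finset.prod_pos fun j hj => ?_
      have := le_W hs hR (j := j + 1) (by omega) (by
        rw [Finset.mem_range] at hj
        omega)
      linarith
    refine md_of_bounds hn (by linarith) hWk ?_ ?_
    · rw [← hYe]
      by_contra hcon
      push Not at hcon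
      apply hc.2
      have hle : Real.log (n * ‖c‖ ^ (n - 1) * Pr n c k) ≤ Real.log (4 * ‖W n c k‖ ^ 3) := by
        refine Real.log_le_log (by positivity) ?_
        have h1 := Pr_le hs hR k hk1 le_rfl
        calc n * ‖c‖ ^ (n - 1) * Pr n c k ≤ ‖W n c k‖ * (2 * ‖W n c k‖) ^ 2 :=
              mul_le_mul hWs h1 hPr.le (norm_nonneg _)
          _ = 4 * ‖W n c k‖ ^ 3 := by ring
      have hlt : ‖Y n c k‖ < 1 - (1 + Real.log (n * ‖c‖ ^ (n - 1) * Pr n c k)) / n := by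
        refine hcon.trans_le ?_
        have : (1 + Real.log (n * ‖c‖ ^ (n - 1) * Pr n c k)) / n ≤
            (1 + Real.log (4 * ‖W n c k‖ ^ 3)) / n :=
          div_le_div_of_nonneg_right (by linarith) hn0.le
        linarith
      rw [mem_interior_iff_mem_nhds]
      have cY := continuous_Y n k
      have cP : Continuous fun c => Pr n c k := by
        unfold Pr
        refine continuous_finsetProd _ fun j _ => ?_
        have := continuous_W n (j + 1)
        fun_prop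
      have ev1 : ∀ᶠ x in 𝓝 c, ‖Y n x k‖ <
          1 - (1 + Real.log (n * ‖x‖ ^ (n - 1) * Pr n x k)) / n := by
        have c1 : ContinuousAt (fun x => ‖Y n x k‖) c := cY.norm.continuousAt
        have c2 : ContinuousAt (fun x : ℂ => 1 - (1 + Real.log (n * ‖x‖ ^ (n - 1) *
            Pr n x k)) / n) c := by
          have c3 : ContinuousAt (fun x : ℂ => n * ‖x‖ ^ (n - 1) * Pr n x k) c := by
            have : Continuous (fun x : ℂ => n * ‖x‖ ^ (n - 1) * Pr n x k) := by fun_prop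
            exact this.continuousAt
          have c4 := c3.log (by positivity)
          exact continuousAt_const.sub ((continuousAt_const.add c4).div_const _)
        exact c1.eventually_lt c2 hlt
      have ev2 : ∀ᶠ x in 𝓝 c, 0 < ‖x‖ :=
        continuousAt_const.eventually_lt continuous_norm.continuousAt hcpos
      have ev3 : ∀ᶠ x in 𝓝 c, ∀ j ∈ Finset.range k, (j = 0 ∨ 1 < ‖Y n x j‖) ∧
          1 < ‖W n x (j + 1)‖ := by
        rw [Filter.eventually_all_finset]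
        intro j hj
        rw [Finset.mem_range] at hj
        have cW := (continuous_W n (j + 1)).norm
        have hw : 1 < ‖W n c (j + 1)‖ := by
          have := le_W hs hR (j := j + 1) (by omega) (by omega)
          linarith
        have ew : ∀ᶠ x in 𝓝 c, 1 < ‖W n x (j + 1)‖ :=
          continuousAt_const.eventually_lt cW.continuousAt hw
        rcases Nat.eq_zero_or_pos j with h0 | h0
        · filter_upwards [ew] with x hx
          exact ⟨Or.inl h0, hx⟩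
        · have hy := one_lt_Y hn hs hR (j := j) h0 hj
          have ey : ∀ᶠ x in 𝓝 c, 1 < ‖Y n x j‖ :=
            continuousAt_const.eventually_lt (continuous_Y n j).norm.continuousAt hy
          filter_upwards [ew, ey] with x hx hx2
          exact ⟨Or.inr hx2, hx⟩
      filter_upwards [ev1, ev2, ev3] with x hx1 hx2 hx3
      refine mem_of_left_step hn (k := k) ?_ ?_ hx2 hx1.le
      · intro j hj
        rcases (hx3 j (Finset.mem_range.2 hj)).1 with h | h
        · rw [h, Y_zero, norm_one]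
        · exact h.le
      · intro j hj
        exact (hx3 j (Finset.mem_range.2 hj)).2.le
    · rw [← hYe]
      exact (not_le.1 hk2).le

end Pool.Agent.W_1365a2_h11
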