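import Mathlib
import Pool.Agent.W_1365a2_h11.Cls

set_option autoImplicit false

/-!
# Area of the boundary of the Multibrot sets: local expansion of the critical orbit in the parameter
-/

namespace Pool.Agent.W_1365a2_h11

open Filter Topology Bornology

/-- One step of the local expansion. -/
lemma step_exp {n m : ℕ} (hn : 16 ≤ n) (hm : 1 ≤ m) {v y g ζ E : ℂ} (hv : 400 ≤ ‖v‖)
    (hy : 1 ≤ ‖y‖) (hvn : ‖v‖ ≤ 3 * n) (hE : ‖E‖ ≤ ‖g‖ ^ 2) (hg : ‖v‖ * ‖g‖ ≤ 4)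
    (hζ : m * ‖ζ‖ ≤ ‖g‖) :
    ∃ E' : ℂ, ‖E'‖ ≤ 7 * (‖v‖ * ‖g‖ ^ 2) ∧
      (1 + ζ) ^ m * (1 + v / (n * y) * (Complex.exp (g + E) - 1)) ^ n =
        Complex.exp (m * ζ + v / y * g + E') := by
  have hn0 : (0 : ℝ) < n := by
    have : 0 < n := by omega
    exact_mod_cast this
  have hn16 : (16 : ℝ) ≤ n := by exact_mod_cast hn
  have hm1 : (1 : ℝ) ≤ m := by exact_mod_cast hm
  have hg0 : 0 ≤ ‖g‖ := norm_nonneg _
  have hg1 : ‖g‖ ≤ 1 / 100 := by nlinarith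
  have hζ0 : 0 ≤ ‖ζ‖ := norm_nonneg _
  have hζ1 : ‖ζ‖ ≤ ‖g‖ := by nlinarith
  have hy0 : y ≠ 0 := by
    rw [← norm_pos_iff]
    linarith
  have hnC : (n : ℂ) ≠ 0 := by
    have : n ≠ 0 := by omega
    exact_mod_cast this
  -- the exponential
  set R : ℂ := Complex.exp (g + E) - 1 - g with hR
  have hgE : ‖g + E‖ ≤ 101 / 100 * ‖g‖ := by
    refine (norm_add_le _ _).trans ?_
    nlinarith
  have hRn : ‖R‖ ≤ 3 * ‖g‖ ^ 2 := by
    have e1 : R = (Complex.exp (g + E) - 1 - (g + E)) + E := by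
      rw [hR]
      ring
    rw [e1]
    refine (norm_add_le _ _).trans ?_
    have h1 := Complex.norm_exp_sub_one_sub_id_le (x := g + E) (by linarith)
    have h2 : ‖g + E‖ ^ 2 ≤ (101 / 100 * ‖g‖) ^ 2 := pow_le_pow_left₀ (norm_nonneg _) hgE 2
    nlinarith
  have hexp : Complex.exp (g + E) - 1 = g + R := by
    rw [hR]
    ring
  -- the quotient
  set q : ℂ := v / (n * y) * (g + R) with hq
  have hqn : ‖q‖ * n ≤ 103 / 100 * (‖v‖ * ‖g‖) := by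
    have h1 : ‖g + R‖ ≤ 103 / 100 * ‖g‖ := by
      refine (norm_add_le _ _).trans ?_
      nlinarith
    have h2 : ‖v / (n * y)‖ * n ≤ ‖v‖ := by
      rw [norm_div, norm_mul, Complex.norm_natCast]
      have h3 : ‖v‖ / (n * ‖y‖) * n = ‖v‖ / ‖y‖ := by
        field_simp
      rw [h3]
      exact div_le_self (norm_nonneg _) hy
    rw [hq, norm_mul]
    calc ‖v / (n * y)‖ * ‖g + R‖ * n = (‖v / (n * y)‖ * n) * ‖g + R‖ := by ring
      _ ≤ ‖v‖ * (103 / 100 * ‖g‖) := mul_le_mul h2 h1 (norm_nonneg _) (norm_nonneg _)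
      _ = 103 / 100 * (‖v‖ * ‖g‖) := by ring
  have hq1 : ‖q‖ ≤ 1 / 2 := by
    have h1 : ‖q‖ * n ≤ 103 / 100 * 4 := hqn.trans (by linarith)
    have h2 : 0 ≤ ‖q‖ := norm_nonneg _
    nlinarith
  have hlog : ∀ z : ℂ, ‖z‖ ≤ 1 / 2 → ‖Complex.log (1 + z) - z‖ ≤ ‖z‖ ^ 2 := by
    intro z hz
    have h1 := Complex.norm_log_one_add_sub_self_le (z := z) (by linarith)
    refine h1.trans ?_
    have h2 : (1 - ‖z‖)⁻¹ ≤ 2 := by
      rw [inv_le_comm₀ (by linarith) (by norm_num)]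
      linarith
    have h3 : 0 ≤ ‖z‖ ^ 2 := by positivity
    nlinarith
  have hne : ∀ z : ℂ, ‖z‖ ≤ 1 / 2 → 1 + z ≠ 0 := by
    intro z hz h0
    have h1 : z = -1 := by linear_combination h0
    rw [h1, norm_neg, norm_one] at hz
    norm_num at hz
  set Q : ℂ := Complex.log (1 + q) - q with hQ
  have hQn : n * ‖Q‖ ≤ 33 / 10 * (‖v‖ * ‖g‖ ^ 2) := by
    have h1 := hlog q hq1
    rw [← hQ] at h1
    have h2 : ‖q‖ * n * (‖q‖ * n) ≤ 103 / 100 * (‖v‖ * ‖g‖) * (103 / 100 * (‖v‖ * ‖g‖)) :=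
      mul_le_mul hqn hqn (by positivity) (by positivity)
    have h3 : n * ‖Q‖ * n ≤ 33 / 10 * (‖v‖ * ‖g‖ ^ 2) * n := by
      have h4 : n * ‖Q‖ * n ≤ ‖q‖ * n * (‖q‖ * n) := by
        have : ‖Q‖ * (n * n) ≤ ‖q‖ ^ 2 * (n * n) :=
          mul_le_mul_of_nonneg_right h1 (by positivity)
        nlinarith
      have h5 : ‖v‖ * (‖v‖ * ‖g‖ ^ 2) ≤ 3 * n * (‖v‖ * ‖g‖ ^ 2) :=
        mul_le_mul_of_nonneg_right hvn (by positivity)
      have h6 : 103 / 100 * (‖v‖ * ‖g‖) * (103 / 100 * (‖v‖ * ‖g‖)) =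
          (103 / 100) ^ 2 * (‖v‖ * (‖v‖ * ‖g‖ ^ 2)) := by ring
      have h7 : 0 ≤ n * (‖v‖ * ‖g‖ ^ 2) := by positivity
      rw [h6] at h2
      nlinarith
    exact le_of_mul_le_mul_right h3 hn0
  set P : ℂ := Complex.log (1 + ζ) - ζ with hP
  have hPn : m * ‖P‖ ≤ 1 / 400 * (‖v‖ * ‖g‖ ^ 2) := by
    have h1 := hlog ζ (by linarith)
    rw [← hP] at h1
    have h2 : m * ‖P‖ ≤ m * ‖ζ‖ * ‖ζ‖ := by
      have := mul_le_mul_of_nonneg_left h1 (by linarith : (0 : ℝ) ≤ m)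
      nlinarith
    have h3 : m * ‖ζ‖ * ‖ζ‖ ≤ ‖g‖ * ‖g‖ := mul_le_mul hζ hζ1 hζ0 hg0
    have h4 : 0 ≤ ‖g‖ ^ 2 := by positivity
    nlinarith
  refine ⟨m * P + v / y * R + n * Q, ?_, ?_⟩
  · refine (norm_add_le _ _).trans ?_
    have h1 : ‖(m : ℂ) * P + v / y * R‖ ≤ 1 / 400 * (‖v‖ * ‖g‖ ^ 2) + 3 * (‖v‖ * ‖g‖ ^ 2) := by
      refine (norm_add_le _ _).trans (add_le_add ?_ ?_)
      · rw [norm_mul, Complex.norm_natCast]
        exact hPn
      · rw [norm_mul, norm_div]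
        have h2 : ‖v‖ / ‖y‖ ≤ ‖v‖ := div_le_self (norm_nonneg _) hy
        calc ‖v‖ / ‖y‖ * ‖R‖ ≤ ‖v‖ * (3 * ‖g‖ ^ 2) :=
              mul_le_mul h2 hRn (norm_nonneg _) (norm_nonneg _)
          _ = 3 * (‖v‖ * ‖g‖ ^ 2) := by ring
    have h2 : ‖(n : ℂ) * Q‖ ≤ 33 / 10 * (‖v‖ * ‖g‖ ^ 2) := by
      rw [norm_mul, Complex.norm_natCast]
      exact hQn
    have h3 : 0 ≤ ‖v‖ * ‖g‖ ^ 2 := by positivity
    linarith
  · have h1 : (1 + ζ) ^ m = Complex.exp (m * Complex.log (1 + ζ)) := by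
      rw [Complex.exp_nat_mul, Complex.exp_log (hne ζ (by linarith))]
    have h2 : (1 + q) ^ n = Complex.exp (n * Complex.log (1 + q)) := by
      rw [Complex.exp_nat_mul, Complex.exp_log (hne q hq1)]
    rw [hexp, ← hq, h1, h2, ← Complex.exp_add]
    congr 1
    have h3 : Complex.log (1 + ζ) = ζ + P := by
      rw [hP]
      ring
    have h4 : Complex.log (1 + q) = q + Q := by
      rw [hQ]
      ring
    rw [h3, h4, mul_add (n : ℂ) q Q, hq]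
    field_simp
    ring

/-- The logarithmic derivatives `d log v_(j+1) / d log c`. -/
noncomputable def Gd (n : ℕ) (c : ℂ) : ℕ → ℂ
  | 0 => ((n - 1 : ℕ) : ℂ)
  | j + 1 => ((n - 1 : ℕ) : ℂ) + W n c (j + 1) / Y n c (j + 1) * Gd n c j

/-- The size of the error terms. -/
noncomputable def Bt (n : ℕ) (c : ℂ) : ℕ → ℝ
  | 0 => 1 / ((n - 1 : ℕ) : ℝ)
  | j + 1 => 400 / ‖W n c (j + 1)‖

lemma Gd_zero (n : ℕ) (c : ℂ) : Gd n c 0 = ((n - 1 : ℕ) : ℂ) := rfl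

lemma Gd_succ (n : ℕ) (c : ℂ) (j : ℕ) :
    Gd n c (j + 1) = ((n - 1 : ℕ) : ℂ) + W n c (j + 1) / Y n c (j + 1) * Gd n c j := rfl

lemma norm_W_le {n : ℕ} (_hn : 16 ≤ n) {c : ℂ} {j : ℕ} (h : ‖Y n c j‖ ≤ 2) :
    ‖W n c j‖ ≤ 3 * n := by
  unfold W
  rw [norm_mul, Complex.norm_natCast]
  have h1 : ‖Y n c j - 1‖ ≤ 3 := by
    refine (norm_sub_le _ _).trans ?_
    rw [norm_one]
    linarith
  have h2 : (0 : ℝ) ≤ n := Nat.cast_nonneg _
  nlinarith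

/-- Growth of the derivatives. -/
lemma Gd_bounds {n : ℕ} (hn : 16 ≤ n) {c : ℂ} {K : ℕ} (hs : 400 ≤ n * ‖c‖ ^ (n - 1))
    (hR : ∀ j, 1 ≤ j → j ≤ K → Rt n c j) :
    ∀ i ≤ K, ((n - 1 : ℕ) : ℝ) ≤ ‖Gd n c i‖ := by
  intro i
  induction i with
  | zero =>
    intro _
    rw [Gd_zero, Complex.norm_natCast]
  | succ i ih =>
    intro hi
    have h1 := ih (by omega)
    have h2 := hR (i + 1) (by omega) hi
    have hR' : ∀ j, 1 ≤ j → j < K + 1 → 4 * ‖W n c j‖ ^ 3 ≤ ‖Y n c j‖ ^ n :=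
      fun j hj hjk => (hR j hj (by omega)).1
    have h3 := le_W (k := K + 1) hs hR' (j := i + 1) (by omega) (by omega)
    have h4 := one_lt_Y (by omega) (k := K + 1) hs hR' (j := i + 1) (by omega) (by omega)
    have h5 : ‖W n c (i + 1)‖ / 2 ≤ ‖W n c (i + 1) / Y n c (i + 1)‖ := by
      rw [norm_div]
      exact div_le_div_of_nonneg_left (norm_nonneg _) (by linarith) h2.2
    have h6 : ‖W n c (i + 1) / Y n c (i + 1) * Gd n c i‖ ≤
        ‖Gd n c (i + 1)‖ + ((n - 1 : ℕ) : ℝ) := by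
      have e : W n c (i + 1) / Y n c (i + 1) * Gd n c i =
          Gd n c (i + 1) - ((n - 1 : ℕ) : ℂ) := by
        rw [Gd_succ]
        ring
      rw [e]
      refine (norm_sub_le _ _).trans ?_
      rw [Complex.norm_natCast]
    rw [norm_mul] at h6
    have h7 : 200 ≤ ‖W n c (i + 1) / Y n c (i + 1)‖ := by linarith
    have h8 : (0 : ℝ) ≤ ((n - 1 : ℕ) : ℝ) := Nat.cast_nonneg _
    nlinarith

lemma Gd_step {n : ℕ} (hn : 16 ≤ n) {c : ℂ} {K : ℕ} (hs : 400 ≤ n * ‖c‖ ^ (n - 1))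
    (hR : ∀ j, 1 ≤ j → j ≤ K → Rt n c j) {i : ℕ} (hi : i < K) :
    ‖W n c (i + 1)‖ * ‖Gd n c i‖ ≤ 4 * ‖Gd n c (i + 1)‖ := by
  have h1 := Gd_bounds hn hs hR i (by omega)
  have h1' := Gd_bounds hn hs hR (i + 1) (by omega)
  have h2 := hR (i + 1) (by omega) (by omega)
  have hR' : ∀ j, 1 ≤ j → j < K + 1 → 4 * ‖W n c j‖ ^ 3 ≤ ‖Y n c j‖ ^ n :=
    fun j hj hjk => (hR j hj (by omega)).1
  have h3 := le_W (k := K + 1) hs hR' (j := i + 1) (by omega) (by omega)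
  have h4 := one_lt_Y (by omega) (k := K + 1) hs hR' (j := i + 1) (by omega) (by omega)
  have h5 : ‖W n c (i + 1)‖ / 2 ≤ ‖W n c (i + 1) / Y n c (i + 1)‖ := by
    rw [norm_div]
    exact div_le_div_of_nonneg_left (norm_nonneg _) (by linarith) h2.2
  have h6 : ‖W n c (i + 1) / Y n c (i + 1) * Gd n c i‖ ≤
      ‖Gd n c (i + 1)‖ + ((n - 1 : ℕ) : ℝ) := by
    have e : W n c (i + 1) / Y n c (i + 1) * Gd n c i =
        Gd n c (i + 1) - ((n - 1 : ℕ) : ℂ) := by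
      rw [Gd_succ]
      ring
    rw [e]
    refine (norm_sub_le _ _).trans ?_
    rw [Complex.norm_natCast]
  rw [norm_mul] at h6
  have h7 : 0 ≤ ‖Gd n c i‖ := norm_nonneg _
  have h8 : ‖W n c (i + 1)‖ / 2 * ‖Gd n c i‖ ≤
      ‖W n c (i + 1) / Y n c (i + 1)‖ * ‖Gd n c i‖ := mul_le_mul_of_nonneg_right h5 h7
  linarith

/-- Local expansion of `v_(i+1)`. -/
lemma W_expand {n : ℕ} (hn : 16 ≤ n) {c : ℂ} {K : ℕ} (hs : 400 ≤ n * ‖c‖ ^ (n - 1))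
    (hR : ∀ j, 1 ≤ j → j ≤ K → Rt n c j) :
    ∀ i ≤ K, ∀ ζ : ℂ, ‖Gd n c i * ζ‖ ≤ 1 → ∃ E : ℂ, ‖E‖ ≤ Bt n c i * ‖Gd n c i * ζ‖ ^ 2 ∧
      W n (c * (1 + ζ)) (i + 1) = W n c (i + 1) * Complex.exp (Gd n c i * ζ + E) := by
  have hm1 : 1 ≤ n - 1 := by omega
  have hm15 : (15 : ℝ) ≤ ((n - 1 : ℕ) : ℝ) := by
    have : 15 ≤ n - 1 := by omega
    exact_mod_cast this
  intro i
  induction i with
  | zero =>
    intro _ ζ hζ
    rw [Gd_zero] at hζ ⊢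
    set m := n - 1 with hm
    have hζ1 : ‖ζ‖ ≤ 1 / 2 := by
      rw [norm_mul, Complex.norm_natCast] at hζ
      have : 0 ≤ ‖ζ‖ := norm_nonneg _
      nlinarith
    refine ⟨m * (Complex.log (1 + ζ) - ζ), ?_, ?_⟩
    · have h1 := Complex.norm_log_one_add_sub_self_le (z := ζ) (by linarith)
      have h2 : (1 - ‖ζ‖)⁻¹ ≤ 2 := by
        rw [inv_le_comm₀ (by linarith) (by norm_num)]
        linarith
      have h3 : 0 ≤ ‖ζ‖ ^ 2 := by positivity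
      have h4 : ‖Complex.log (1 + ζ) - ζ‖ ≤ ‖ζ‖ ^ 2 := by nlinarith
      show ‖(m : ℂ) * (Complex.log (1 + ζ) - ζ)‖ ≤ 1 / (m : ℝ) * ‖(m : ℂ) * ζ‖ ^ 2
      rw [norm_mul, norm_mul, Complex.norm_natCast]
      have h5 : 1 / (m : ℝ) * ((m : ℝ) * ‖ζ‖) ^ 2 = m * ‖ζ‖ ^ 2 := by
        field_simp
      rw [h5]
      exact mul_le_mul_of_nonneg_left h4 (by linarith)
    · have hne : 1 + ζ ≠ 0 := by
        intro h0
        have h1 : ζ = -1 := by linear_combination h0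
        rw [h1, norm_neg, norm_one] at hζ1
        norm_num at hζ1
      have e1 : (m : ℂ) * ζ + m * (Complex.log (1 + ζ) - ζ) = m * Complex.log (1 + ζ) := by ring
      rw [W_one, W_one, e1, Complex.exp_nat_mul, Complex.exp_log hne, mul_pow]
      ring
  | succ i ih =>
    intro hi ζ hζ
    have hR' : ∀ j, 1 ≤ j → j < K + 1 → 4 * ‖W n c j‖ ^ 3 ≤ ‖Y n c j‖ ^ n :=
      fun j hj hjk => (hR j hj (by omega)).1
    have hW := le_W (k := K + 1) hs hR' (j := i + 1) (by omega) (by omega)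
    have hY := one_lt_Y (by omega) (k := K + 1) hs hR' (j := i + 1) (by omega) (by omega)
    have hRi := hR (i + 1) (by omega) hi
    have hst := Gd_step hn hs hR (i := i) (by omega)
    have hGm := Gd_bounds hn hs hR i (by omega)
    set v := W n c (i + 1) with hv
    set y := Y n c (i + 1) with hy
    have hv400 : 400 ≤ ‖v‖ := by linarith
    have hζ0 : 0 ≤ ‖ζ‖ := norm_nonneg _
    have hkey : ‖v‖ * ‖Gd n c i * ζ‖ ≤ 4 * ‖Gd n c (i + 1) * ζ‖ := by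
      rw [norm_mul, norm_mul]
      have := mul_le_mul_of_nonneg_right hst hζ0
      linarith
    have hg4 : ‖v‖ * ‖Gd n c i * ζ‖ ≤ 4 := by linarith
    have hg0 : 0 ≤ ‖Gd n c i * ζ‖ := norm_nonneg _
    have hg1 : ‖Gd n c i * ζ‖ ≤ 1 := by nlinarith
    obtain ⟨E, hE1, hE2⟩ := ih (by omega) ζ hg1
    have hBt : Bt n c i ≤ 1 := by
      rcases i with _ | j
      · show 1 / ((n - 1 : ℕ) : ℝ) ≤ 1
        rw [div_le_one (by linarith)]
        linarith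
      · show 400 / ‖W n c (j + 1)‖ ≤ 1
        have hW' := le_W (k := K + 1) hs hR' (j := j + 1) (by omega) (by omega)
        rw [div_le_one (by linarith)]
        linarith
    have hE3 : ‖E‖ ≤ ‖Gd n c i * ζ‖ ^ 2 := by
      refine hE1.trans ?_
      have : 0 ≤ ‖Gd n c i * ζ‖ ^ 2 := by positivity
      nlinarith
    have hmζ : ((n - 1 : ℕ) : ℝ) * ‖ζ‖ ≤ ‖Gd n c i * ζ‖ := by
      rw [norm_mul]
      exact mul_le_mul_of_nonneg_right hGm hζ0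
    obtain ⟨E', hE'1, hE'2⟩ := step_exp hn hm1 hv400 hY.le (norm_W_le hn hRi.2) hE3 hg4 hmζ
    refine ⟨E', ?_, ?_⟩
    · refine hE'1.trans ?_
      show 7 * (‖v‖ * ‖Gd n c i * ζ‖ ^ 2) ≤ 400 / ‖v‖ * ‖Gd n c (i + 1) * ζ‖ ^ 2
      rw [div_mul_eq_mul_div, le_div_iff₀ (by linarith)]
      have h1 : (‖v‖ * ‖Gd n c i * ζ‖) * (‖v‖ * ‖Gd n c i * ζ‖) ≤
          (4 * ‖Gd n c (i + 1) * ζ‖) * (4 * ‖Gd n c (i + 1) * ζ‖) :=
        mul_le_mul hkey hkey (by positivity) (by positivity)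
      nlinarith [sq_nonneg ‖Gd n c (i + 1) * ζ‖]
    · have hy0 : y ≠ 0 := by
        rw [← norm_pos_iff]
        linarith
      have hnC : (n : ℂ) ≠ 0 := by
        have : n ≠ 0 := by omega
        exact_mod_cast this
      have hYc : Y n (c * (1 + ζ)) (i + 1) =
          y * (1 + v / (n * y) * (Complex.exp (Gd n c i * ζ + E) - 1)) := by
        rw [Y_eq (by omega), hE2]
        have e1 : y = 1 + v / n := Y_eq (by omega) c (i + 1)
        have e2 : y * (1 + v / (n * y) * (Complex.exp (Gd n c i * ζ + E) - 1)) =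
            y + v / n * (Complex.exp (Gd n c i * ζ + E) - 1) := by
          field_simp
        rw [e2, e1]
        ring
      rw [W_succ, W_succ, ← hy, hYc, mul_pow, mul_pow, Gd_succ, ← hv, ← hy]
      have e3 : (n : ℂ) * (c ^ (n - 1) * (1 + ζ) ^ (n - 1)) *
          (y ^ n * (1 + v / (n * y) * (Complex.exp (Gd n c i * ζ + E) - 1)) ^ n) =
          n * c ^ (n - 1) * y ^ n * ((1 + ζ) ^ (n - 1) *
          (1 + v / (n * y) * (Complex.exp (Gd n c i * ζ + E) - 1)) ^ n) := by ring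
      rw [e3, hE'2]
      congr 2
      ring

end Pool.Agent.W_1365a2_h11
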