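import Mathlib

set_option autoImplicit false

/-!
# Area of the boundary of the Multibrot sets: angular estimate
-/

namespace Pool.Agent.W_1365a2_h11

open MeasureTheory Real

/-- The arc cosine is Hoelder continuous with exponent one half. -/
lemma cos_sub_ge {α β : ℝ} (hα : 0 ≤ α) (hαβ : α ≤ β) (hβ : β ≤ π) :
    2 * ((β - α) / π) ^ 2 ≤ cos α - cos β := by
  have h1 : cos α - cos β = 2 * sin ((α + β) / 2) * sin ((β - α) / 2) := by
    rw [Real.cos_sub_cos]
    have h2 : (α - β) / 2 = -((β - α) / 2) := by ring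
    rw [h2, Real.sin_neg]
    ring
  set d := (β - α) / 2 with hd
  have hd0 : 0 ≤ d := by rw [hd]; linarith
  have hd1 : d ≤ π / 2 := by rw [hd]; linarith
  have hs : 2 / π * d ≤ sin d := Real.mul_le_sin hd0 hd1
  have hs2 : sin d ≤ sin ((α + β) / 2) := by
    rcases le_total ((α + β) / 2) (π / 2) with h | h
    · exact Real.sin_le_sin_of_le_of_le_pi_div_two (by linarith) h (by rw [hd]; linarith)
    · rw [← Real.sin_pi_sub ((α + β) / 2)]
      exact Real.sin_le_sin_of_le_of_le_pi_div_two (by linarith) (by linarith) (by rw [hd]; linarith)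
  have hp : 0 < π := Real.pi_pos
  have h0 : 0 ≤ 2 / π * d := by positivity
  have h3 : 2 * ((β - α) / π) ^ 2 = 2 * (2 / π * d) * (2 / π * d) := by
    rw [hd]
    field_simp
  rw [h1, h3]
  have h4 : 2 / π * d ≤ sin ((α + β) / 2) := hs.trans hs2
  nlinarith

lemma abs_sub_le_of_cos {α β a : ℝ} (hα0 : 0 ≤ α) (hα : α ≤ π) (hβ0 : 0 ≤ β) (hβ : β ≤ π)
    (h : |cos α - cos β| ≤ 2 * a) : |α - β| ≤ π * √a := by
  wlog hab : α ≤ β generalizing α β with H
  · rw [abs_sub_comm]
    exact H hβ0 hβ hα0 hα (by rwa [abs_sub_comm]) (le_of_not_ge hab)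
  have hp : 0 < π := Real.pi_pos
  have h1 := cos_sub_ge hα0 hab hβ
  have h2 : cos α - cos β ≤ 2 * a := (le_abs_self _).trans h
  have h3 : ((β - α) / π) ^ 2 ≤ a := by linarith
  have h4 : (β - α) / π ≤ √a := Real.le_sqrt_of_sq_le h3
  rw [abs_sub_comm, abs_of_nonneg (by linarith)]
  rw [div_le_iff₀ hp] at h4
  linarith

/-- The set of angles for which `cos (m θ)` lies in an interval of length `2 a`. -/
lemma volume_angles_le {m : ℕ} (hm : 1 ≤ m) (x : ℝ) {a : ℝ} (ha : 0 ≤ a) :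
    volume {θ : ℝ | θ ∈ Set.Ioo (-π) π ∧ |cos (m * θ) + x| ≤ a} ≤
      ENNReal.ofReal (2 * π * √a) := by
  have hp : 0 < π := Real.pi_pos
  have hm0 : (0 : ℝ) < m := by exact_mod_cast hm
  set T : ℕ → Set ℝ := fun k => {θ : ℝ | (-π + k * π / m ≤ θ ∧ θ ≤ -π + (k + 1) * π / m) ∧
    |cos (m * θ) + x| ≤ a} with hT
  have hcov : {θ : ℝ | θ ∈ Set.Ioo (-π) π ∧ |cos (m * θ) + x| ≤ a} ⊆
      ⋃ k ∈ Finset.range (2 * m), T k := by
    rintro θ ⟨⟨h1, h2⟩, h3⟩
    have h4 : 0 ≤ (θ + π) * m / π := by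
      have : 0 ≤ θ + π := by linarith
      positivity
    refine Set.mem_biUnion (x := ⌊(θ + π) * m / π⌋₊) ?_ ?_
    · simp only [Finset.coe_range, Set.mem_Iio]
      rw [Nat.floor_lt h4, div_lt_iff₀ hp]
      push_cast
      have : θ + π < 2 * π := by linarith
      nlinarith
    · have h5 := Nat.floor_le h4
      have h6 := Nat.lt_floor_add_one ((θ + π) * m / π)
      set k := ⌊(θ + π) * m / π⌋₊ with hk
      refine ⟨⟨?_, ?_⟩, h3⟩
      · rw [le_div_iff₀ hp] at h5
        have : (k : ℝ) * π / m ≤ θ + π := by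
          rw [div_le_iff₀ hm0]
          linarith
        linarith
      · rw [div_lt_iff₀ hp] at h6
        have : θ + π ≤ ((k : ℝ) + 1) * π / m := by
          rw [le_div_iff₀ hm0]
          linarith
        linarith
  have hTk : ∀ k ∈ Finset.range (2 * m), volume (T k) ≤ ENNReal.ofReal (π * √a / m) := by
    intro k _
    refine (Real.volume_le_diam _).trans (Metric.ediam_le ?_)
    rintro θ₁ ⟨⟨h1, h2⟩, h3⟩ θ₂ ⟨⟨h4, h5⟩, h6⟩
    rw [edist_dist, Real.dist_eq]
    refine ENNReal.ofReal_le_ofReal ?_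
    set j : ℤ := (k : ℤ) - m with hj
    have hjr : (j : ℝ) = (k : ℝ) - m := by rw [hj]; push_cast; ring
    have hb : ∀ θ : ℝ, -π + k * π / m ≤ θ → θ ≤ -π + (k + 1) * π / m →
        0 ≤ m * θ - j * π ∧ m * θ - j * π ≤ π := by
      intro θ ha1 ha2
      have e1 : m * (-π + k * π / m) = (k - m) * π := by field_simp; ring
      have e2 : m * (-π + (k + 1) * π / m) = (k - m) * π + π := by field_simp; ring
      have f1 := mul_le_mul_of_nonneg_left ha1 hm0.le
      have f2 := mul_le_mul_of_nonneg_left ha2 hm0.le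
      rw [e1] at f1
      rw [e2] at f2
      rw [hjr]
      constructor <;> linarith
    have hcos : ∀ θ : ℝ, cos (m * θ) = (-1) ^ j * cos (m * θ - j * π) := by
      intro θ
      rw [← Real.cos_add_int_mul_pi]
      congr 1
      ring
    obtain ⟨g1, g2⟩ := hb θ₁ h1 h2
    obtain ⟨g3, g4⟩ := hb θ₂ h4 h5
    have hd : |cos (m * θ₁ - j * π) - cos (m * θ₂ - j * π)| ≤ 2 * a := by
      have e3 : |cos (m * θ₁) - cos (m * θ₂)| ≤ 2 * a := by
        have e4 : cos (m * θ₁) - cos (m * θ₂) = (cos (m * θ₁) + x) - (cos (m * θ₂) + x) := by ring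
        rw [e4]
        refine (abs_sub _ _).trans ?_
        linarith
      rw [hcos θ₁, hcos θ₂, ← mul_sub, abs_mul, abs_zpow, abs_neg, abs_one, one_zpow,
        one_mul] at e3
      exact e3
    have he := abs_sub_le_of_cos g1 g2 g3 g4 hd
    have e5 : (m * θ₁ - j * π) - (m * θ₂ - j * π) = m * (θ₁ - θ₂) := by ring
    rw [e5, abs_mul, abs_of_pos hm0] at he
    rw [le_div_iff₀ hm0]
    linarith
  calc volume {θ : ℝ | θ ∈ Set.Ioo (-π) π ∧ |cos (m * θ) + x| ≤ a}
      ≤ volume (⋃ k ∈ Finset.range (2 * m), T k) := measure_mono hcov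
    _ ≤ ∑ k ∈ Finset.range (2 * m), volume (T k) := measure_biUnion_finset_le _ _
    _ ≤ ∑ _k ∈ Finset.range (2 * m), ENNReal.ofReal (π * √a / m) := Finset.sum_le_sum hTk
    _ = ENNReal.ofReal (2 * π * √a) := by
        rw [Finset.sum_const, Finset.card_range, nsmul_eq_mul, ← ENNReal.ofReal_natCast,
          ← ENNReal.ofReal_mul (Nat.cast_nonneg _)]
        congr 1
        push_cast
        field_simp

end Pool.Agent.W_1365a2_h11
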