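import Mathlib
import Pool.Agent.W_1365a2_h11.Ang

set_option autoImplicit false

/-!
# Area of the boundary of the Multibrot sets: the local area estimate
-/

namespace Pool.Agent.W_1365a2_h11

open MeasureTheory Real

/-- On the arcs where the sine is at least one half the cosine expands. -/
lemma abs_sub_le_of_cos_of_sin {α β a : ℝ} (hα0 : 0 ≤ α) (hα : α ≤ π) (hβ0 : 0 ≤ β) (hβ : β ≤ π)
    (hsα : 1 / 2 ≤ sin α) (hsβ : 1 / 2 ≤ sin β) (h : |cos α - cos β| ≤ 2 * a) :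
    |α - β| ≤ 2 * π * a := by
  wlog hab : α ≤ β generalizing α β with H
  · rw [abs_sub_comm]
    exact H hβ0 hβ hα0 hα hsβ hsα (by rwa [abs_sub_comm]) (le_of_not_ge hab)
  have hp : 0 < π := Real.pi_pos
  have h1 : cos α - cos β = 2 * sin ((α + β) / 2) * sin ((β - α) / 2) := by
    rw [Real.cos_sub_cos]
    have h2 : (α - β) / 2 = -((β - α) / 2) := by ring
    rw [h2, Real.sin_neg]
    ring
  have hs1 : 2 / π * ((β - α) / 2) ≤ sin ((β - α) / 2) :=
    Real.mul_le_sin (by linarith) (by linarith)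
  have hs2 : 1 / 2 ≤ sin ((α + β) / 2) := by
    have hc := strictConcaveOn_sin_Icc.concaveOn.2 (show α ∈ Set.Icc 0 π from ⟨hα0, hα⟩)
      (show β ∈ Set.Icc 0 π from ⟨hβ0, hβ⟩) (show (0 : ℝ) ≤ 1 / 2 by norm_num)
      (show (0 : ℝ) ≤ 1 / 2 by norm_num) (by norm_num)
    simp only [smul_eq_mul] at hc
    have e : 1 / 2 * α + 1 / 2 * β = (α + β) / 2 := by ring
    rw [e] at hc
    linarith
  have h2 : cos α - cos β ≤ 2 * a := (le_abs_self _).trans h
  rw [h1] at h2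
  have h3 : 2 / π * ((β - α) / 2) = (β - α) / π := by
    field_simp
  rw [h3] at hs1
  have h4 : 0 ≤ (β - α) / π := div_nonneg (by linarith) hp.le
  have h5 : (β - α) / π ≤ 2 * a := by nlinarith
  rw [abs_sub_comm, abs_of_nonneg (by linarith)]
  rw [div_le_iff₀ hp] at h5
  linarith

lemma volume_slice_le {ψ : ℝ} (hψ1 : -π ≤ ψ) (hψ2 : ψ ≤ π) (t : ℝ) {a : ℝ} :
    volume {y : ℝ | y ∈ Set.Icc (-1 : ℝ) 1 ∧ 1 / 2 ≤ |sin (ψ + y)| ∧ |cos (ψ + y) + t| ≤ a} ≤
      ENNReal.ofReal (8 * π * a) := by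
  have hp : 0 < π := Real.pi_pos
  have hp1 : 1 ≤ π := by
    have := Real.pi_gt_three
    linarith
  set T : ℕ → Set ℝ := fun k => {y : ℝ | ((((k : ℤ) - 2 : ℤ) : ℝ) * π ≤ ψ + y ∧
    ψ + y ≤ (((k : ℤ) - 2 : ℤ) : ℝ) * π + π) ∧ 1 / 2 ≤ |sin (ψ + y)| ∧
    |cos (ψ + y) + t| ≤ a} with hT
  have hcov : {y : ℝ | y ∈ Set.Icc (-1 : ℝ) 1 ∧ 1 / 2 ≤ |sin (ψ + y)| ∧
      |cos (ψ + y) + t| ≤ a} ⊆ ⋃ k ∈ Finset.range 4, T k := by
    rintro y ⟨⟨h1, h2⟩, h3⟩
    simp only [Set.mem_iUnion, Finset.mem_range, hT, Set.mem_ofPred_eq]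
    rcases le_or_gt (ψ + y) (-π) with h | h
    · refine ⟨0, by norm_num, ⟨?_, ?_⟩, h3⟩ <;> push_cast <;> linarith
    · rcases le_or_gt (ψ + y) 0 with h' | h'
      · refine ⟨1, by norm_num, ⟨?_, ?_⟩, h3⟩ <;> push_cast <;> linarith
      · rcases le_or_gt (ψ + y) π with h'' | h''
        · refine ⟨2, by norm_num, ⟨?_, ?_⟩, h3⟩ <;> push_cast <;> linarith
        · refine ⟨3, by norm_num, ⟨?_, ?_⟩, h3⟩ <;> push_cast <;> linarith
  have hTk : ∀ k ∈ Finset.range 4, volume (T k) ≤ ENNReal.ofReal (2 * π * a) := by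
    intro k _
    refine (Real.volume_le_diam _).trans (Metric.ediam_le ?_)
    rintro y₁ ⟨⟨h1, h2⟩, h31, h3⟩ y₂ ⟨⟨h4, h5⟩, h61, h6⟩
    rw [edist_dist, Real.dist_eq]
    refine ENNReal.ofReal_le_ofReal ?_
    set j : ℤ := (k : ℤ) - 2 with hj
    have hcos : ∀ θ : ℝ, cos θ = (-1) ^ j * cos (θ - j * π) := by
      intro θ
      rw [← Real.cos_add_int_mul_pi]
      congr 1
      ring
    have hsin : ∀ θ : ℝ, |sin θ| = |sin (θ - j * π)| := by
      intro θ
      have h7 : sin θ = (-1) ^ j * sin (θ - j * π) := by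
        rw [← Real.sin_add_int_mul_pi]
        congr 1
        ring
      rw [h7, abs_mul, abs_zpow, abs_neg, abs_one, one_zpow, one_mul]
    have hd : |cos (ψ + y₁ - j * π) - cos (ψ + y₂ - j * π)| ≤ 2 * a := by
      have e3 : |cos (ψ + y₁) - cos (ψ + y₂)| ≤ 2 * a := by
        have e4 : cos (ψ + y₁) - cos (ψ + y₂) =
            (cos (ψ + y₁) + t) - (cos (ψ + y₂) + t) := by ring
        rw [e4]
        refine (abs_sub _ _).trans ?_
        linarith
      rw [hcos (ψ + y₁), hcos (ψ + y₂), ← mul_sub, abs_mul, abs_zpow, abs_neg, abs_one, one_zpow,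
        one_mul] at e3
      exact e3
    have hs1 : 1 / 2 ≤ sin (ψ + y₁ - j * π) := by
      rw [hsin, abs_of_nonneg (Real.sin_nonneg_of_nonneg_of_le_pi (by linarith) (by linarith))]
        at h31
      exact h31
    have hs2 : 1 / 2 ≤ sin (ψ + y₂ - j * π) := by
      rw [hsin, abs_of_nonneg (Real.sin_nonneg_of_nonneg_of_le_pi (by linarith) (by linarith))]
        at h61
      exact h61
    have he := abs_sub_le_of_cos_of_sin (by linarith) (by linarith) (by linarith) (by linarith)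
      hs1 hs2 hd
    have e5 : ψ + y₁ - j * π - (ψ + y₂ - j * π) = y₁ - y₂ := by ring
    rwa [e5] at he
  calc volume {y : ℝ | y ∈ Set.Icc (-1 : ℝ) 1 ∧ 1 / 2 ≤ |sin (ψ + y)| ∧ |cos (ψ + y) + t| ≤ a}
      ≤ volume (⋃ k ∈ Finset.range 4, T k) := measure_mono hcov
    _ ≤ ∑ k ∈ Finset.range 4, volume (T k) := measure_biUnion_finset_le _ _
    _ ≤ ∑ _k ∈ Finset.range 4, ENNReal.ofReal (2 * π * a) := Finset.sum_le_sum hTk
    _ = ENNReal.ofReal (8 * π * a) := by
        rw [Finset.sum_const, Finset.card_range, nsmul_eq_mul, ← ENNReal.ofReal_natCast,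
          ← ENNReal.ofReal_mul (Nat.cast_nonneg _)]
        congr 1
        push_cast
        ring

/-- Slices in the other direction. -/
lemma volume_slice_le' {κ c a : ℝ} (hκ : 0 ≤ κ) (hc : 1 / 2 ≤ |c|) (ha : a ≤ 1 / 4) :
    volume {x : ℝ | x ∈ Set.Icc (-1 : ℝ) 1 ∧ |c + κ * exp x| ≤ a} ≤ ENNReal.ofReal (8 * a) := by
  refine (Real.volume_le_diam _).trans (Metric.ediam_le ?_)
  rintro x₁ ⟨-, h1⟩ x₂ ⟨-, h2⟩
  rw [edist_dist, Real.dist_eq]
  refine ENNReal.ofReal_le_ofReal ?_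
  wlog hx : x₁ ≤ x₂ generalizing x₁ x₂ with H
  · rw [abs_sub_comm]
    exact H x₂ h2 x₁ h1 (le_of_not_ge hx)
  have e1 : 1 / 4 ≤ κ * exp x₁ := by
    have h3 : |c| ≤ |c + κ * exp x₁| + |κ * exp x₁| := by
      have h4 : c = (c + κ * exp x₁) - κ * exp x₁ := by ring
      calc |c| = |(c + κ * exp x₁) - κ * exp x₁| := by rw [← h4]
        _ ≤ |c + κ * exp x₁| + |κ * exp x₁| := abs_sub _ _
    rw [abs_of_nonneg (by positivity : 0 ≤ κ * exp x₁)] at h3
    linarith
  have e2 : κ * exp x₂ - κ * exp x₁ ≤ 2 * a := by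
    have h3 := (abs_le.1 h1).1
    have h4 := (abs_le.1 h2).2
    linarith
  have e3 : κ * exp x₁ * (x₂ - x₁) ≤ κ * exp x₂ - κ * exp x₁ := by
    have h3 : exp x₂ = exp x₁ * exp (x₂ - x₁) := by
      rw [← Real.exp_add]
      congr 1
      ring
    have h4 := Real.add_one_le_exp (x₂ - x₁)
    have h5 : 0 ≤ κ * exp x₁ := by positivity
    rw [h3]
    nlinarith
  rw [abs_sub_comm, abs_of_nonneg (by linarith)]
  have h6 : 0 ≤ x₂ - x₁ := by linarith
  nlinarith

/-- The model set. -/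
def TT (ψ κ a : ℝ) : Set ℂ :=
  {z | z.re ∈ Set.Icc (-1 : ℝ) 1 ∧ z.im ∈ Set.Icc (-1 : ℝ) 1 ∧
    |cos (ψ + z.im) + κ * exp z.re| ≤ a}

lemma volume_TT_le {ψ : ℝ} (hψ1 : -π ≤ ψ) (hψ2 : ψ ≤ π) {κ a : ℝ} (hκ : 0 ≤ κ) (ha0 : 0 ≤ a) :
    volume (TT ψ κ a) ≤ ENNReal.ofReal (32 * π * a) := by
  have hp : 0 < π := Real.pi_pos
  have hp1 : 1 ≤ π := by
    have := Real.pi_gt_three
    linarith
  set T' : Set (ℝ × ℝ) := {p | p.1 ∈ Set.Icc (-1 : ℝ) 1 ∧ p.2 ∈ Set.Icc (-1 : ℝ) 1 ∧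
    |cos (ψ + p.2) + κ * exp p.1| ≤ a} with hT'
  have m1 : MeasurableSet {p : ℝ × ℝ | p.1 ∈ Set.Icc (-1 : ℝ) 1} :=
    measurable_fst measurableSet_Icc
  have m2 : MeasurableSet {p : ℝ × ℝ | p.2 ∈ Set.Icc (-1 : ℝ) 1} :=
    measurable_snd measurableSet_Icc
  have m3 : MeasurableSet {p : ℝ × ℝ | |cos (ψ + p.2) + κ * exp p.1| ≤ a} := by
    have : IsClosed {p : ℝ × ℝ | |cos (ψ + p.2) + κ * exp p.1| ≤ a} :=
      isClosed_le (by fun_prop) continuous_const
    exact this.measurableSet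
  have m4 : MeasurableSet {p : ℝ × ℝ | 1 / 2 ≤ |sin (ψ + p.2)|} := by
    have : IsClosed {p : ℝ × ℝ | 1 / 2 ≤ |sin (ψ + p.2)|} :=
      isClosed_le continuous_const (by fun_prop)
    exact this.measurableSet
  have hmeas : MeasurableSet T' := m1.inter (m2.inter m3)
  have h1 : TT ψ κ a = Complex.measurableEquivRealProd ⁻¹' T' := by
    ext z
    rfl
  rw [h1, Complex.volume_preserving_equiv_real_prod.measure_preimage hmeas.nullMeasurableSet]
  rcases le_or_gt a (1 / 4) with ha | ha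
  swap
  · have h2 : T' ⊆ Set.Icc (-1 : ℝ) 1 ×ˢ Set.Icc (-1 : ℝ) 1 := fun p hp => ⟨hp.1, hp.2.1⟩
    refine (measure_mono h2).trans ?_
    rw [Measure.volume_eq_prod, Measure.prod_prod, Real.volume_Icc,
      ← ENNReal.ofReal_mul (by norm_num)]
    refine ENNReal.ofReal_le_ofReal ?_
    nlinarith
  set T1 : Set (ℝ × ℝ) := T' ∩ {p : ℝ × ℝ | 1 / 2 ≤ |sin (ψ + p.2)|} with hT1
  set T2 : Set (ℝ × ℝ) := T' \ {p : ℝ × ℝ | 1 / 2 ≤ |sin (ψ + p.2)|} with hT2
  have hm1 : MeasurableSet T1 := hmeas.inter m4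
  have hm2 : MeasurableSet T2 := hmeas.diff m4
  have hsplit : T' = T1 ∪ T2 := (Set.inter_union_sdiff T' _).symm
  have hv1 : volume T1 ≤ ENNReal.ofReal (16 * π * a) := by
    rw [Measure.volume_eq_prod, Measure.prod_apply hm1]
    have h2 : ∀ x : ℝ, volume (Prod.mk x ⁻¹' T1) ≤
        (Set.Icc (-1 : ℝ) 1).indicator (fun _ => ENNReal.ofReal (8 * π * a)) x := by
      intro x
      by_cases hx : x ∈ Set.Icc (-1 : ℝ) 1
      · rw [Set.indicator_of_mem hx]
        refine (measure_mono ?_).trans (volume_slice_le hψ1 hψ2 (κ * exp x))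
        rintro y ⟨⟨_, h4, h5⟩, h6⟩
        exact ⟨h4, h6, h5⟩
      · rw [Set.indicator_of_notMem hx]
        have : Prod.mk x ⁻¹' T1 = ∅ := by
          ext y
          simp only [Set.mem_preimage, Set.mem_empty_iff_false, iff_false]
          exact fun h => hx h.1.1
        rw [this, measure_empty]
    refine (lintegral_mono h2).trans ?_
    rw [lintegral_indicator measurableSet_Icc, setLIntegral_const, Real.volume_Icc,
      ← ENNReal.ofReal_mul (by positivity)]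
    exact ENNReal.ofReal_le_ofReal (by linarith)
  have hv2 : volume T2 ≤ ENNReal.ofReal (16 * a) := by
    rw [Measure.volume_eq_prod, Measure.prod_apply_symm hm2]
    have h2 : ∀ y : ℝ, volume ((fun x => (x, y)) ⁻¹' T2) ≤
        (Set.Icc (-1 : ℝ) 1).indicator (fun _ => ENNReal.ofReal (8 * a)) y := by
      intro y
      by_cases hy : y ∈ Set.Icc (-1 : ℝ) 1 ∧ |sin (ψ + y)| < 1 / 2
      · rw [Set.indicator_of_mem hy.1]
        have hcos : 1 / 2 ≤ |cos (ψ + y)| := by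
          have h3 := Real.sin_sq_add_cos_sq (ψ + y)
          have h4 : sin (ψ + y) ^ 2 < 1 / 4 := by
            rw [← sq_abs]
            have := abs_nonneg (sin (ψ + y))
            nlinarith [hy.2]
          by_contra hcon
          push Not at hcon
          have h5 : cos (ψ + y) ^ 2 < 1 / 4 := by
            rw [← sq_abs]
            have := abs_nonneg (cos (ψ + y))
            nlinarith
          linarith
        refine (measure_mono ?_).trans (volume_slice_le' hκ hcos ha)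
        rintro x ⟨⟨h4, _, h5⟩, h6⟩
        exact ⟨h4, h5⟩
      · have : (fun x => (x, y)) ⁻¹' T2 = ∅ := by
          ext x
          simp only [Set.mem_preimage, Set.mem_empty_iff_false, iff_false]
          intro h
          exact hy ⟨h.1.2.1, not_le.1 h.2⟩
        rw [this, measure_empty]
        exact zero_le
    refine (lintegral_mono h2).trans ?_
    rw [lintegral_indicator measurableSet_Icc, setLIntegral_const, Real.volume_Icc,
      ← ENNReal.ofReal_mul (by positivity)]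
    exact ENNReal.ofReal_le_ofReal (by linarith)
  rw [hsplit]
  refine (measure_union_le _ _).trans ((add_le_add hv1 hv2).trans ?_)
  rw [← ENNReal.ofReal_add (by positivity) (by positivity)]
  refine ENNReal.ofReal_le_ofReal ?_
  nlinarith

lemma volume_preimage_mul (w c₀ : ℂ) (hw : w ≠ 0) (S : Set ℂ) :
    volume {c : ℂ | (c - c₀) * w ∈ S} = ENNReal.ofReal ((‖w‖ ^ 2)⁻¹) * volume S := by
  have h1 : {c : ℂ | (c - c₀) * w ∈ S} =
      (fun c => c - c₀) ⁻¹' ((LinearMap.mulLeft ℝ w) ⁻¹' S) := by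
    ext c
    simp only [Set.mem_ofPred_eq, Set.mem_preimage, LinearMap.mulLeft_apply]
    rw [mul_comm]
  have hdet : LinearMap.det (LinearMap.mulLeft ℝ w) = ‖w‖ ^ 2 := by
    have h2 := Algebra.norm_complex_apply w
    rw [Algebra.norm_apply] at h2
    rw [← Complex.normSq_eq_norm_sq, ← h2]
    rfl
  have hpos : 0 < ‖w‖ ^ 2 := by
    have : 0 < ‖w‖ := norm_pos_iff.2 hw
    positivity
  rw [h1]
  have h3 : volume ((fun c : ℂ => c - c₀) ⁻¹' ((LinearMap.mulLeft ℝ w) ⁻¹' S)) =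
      volume ((LinearMap.mulLeft ℝ w) ⁻¹' S) := by
    simp_rw [sub_eq_add_neg]
    exact measure_preimage_add_right _ _ _
  rw [h3, Measure.addHaar_preimage_linearMap _ (by rw [hdet]; exact hpos.ne'), hdet,
    abs_of_pos (inv_pos.2 hpos)]

end Pool.Agent.W_1365a2_h11
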