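import Mathlib
import Pool.Agent.W_1365a2_h11.Loc
import Pool.Agent.W_1365a2_h11.LocM

set_option autoImplicit false

/-!
# Area of the boundary of the Multibrot sets: undecided parameters near a given one
-/

namespace Pool.Agent.W_1365a2_h11

open MeasureTheory Real

lemma md_local {n : ℕ} (hn : 16 ≤ n) {v₀ z E : ℂ} {β : ℝ} (hv0 : 400 ≤ ‖v₀‖)
    (hvn : ‖v₀‖ ≤ 4 * n) (hz : ‖z‖ ≤ 1) (hE : ‖E‖ ≤ β) (hβ : β ≤ 1)
    (h : Md n (v₀ * Complex.exp (z + E))) :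
    |cos (v₀.arg + z.im) + ‖v₀‖ / (2 * n) * exp z.re| ≤
      1350 * (log ‖v₀‖ / ‖v₀‖) + 12 * β := by
  have hn0 : (0 : ℝ) < n := by
    have : 0 < n := by omega
    exact_mod_cast this
  have hV : 0 < ‖v₀‖ := by linarith
  have hβ0 : 0 ≤ β := (norm_nonneg _).trans hE
  have hre : |E.re| ≤ β := (Complex.abs_re_le_norm E).trans hE
  have him : |E.im| ≤ β := (Complex.abs_im_le_norm E).trans hE
  have hzre : |z.re| ≤ 1 := (Complex.abs_re_le_norm z).trans hz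
  obtain ⟨hre1, hre2⟩ := abs_le.1 hre
  obtain ⟨hz1, hz2⟩ := abs_le.1 hzre
  set v : ℂ := v₀ * Complex.exp (z + E) with hv
  have hvn1 : ‖v‖ = ‖v₀‖ * (exp z.re * exp E.re) := by
    rw [hv, norm_mul, Complex.norm_exp, Complex.add_re, Real.exp_add]
  have hvpos : 0 < ‖v‖ := by
    rw [hvn1]
    positivity
  have hcos : v.re / ‖v‖ = cos (v₀.arg + z.im + E.im) := by
    have h1 : v = ((‖v₀‖ : ℝ) : ℂ) * Complex.exp (v₀.arg * Complex.I + (z + E)) := by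
      rw [Complex.exp_add, ← mul_assoc, Complex.norm_mul_exp_arg_mul_I]
    have h2 : v.re = ‖v₀‖ * (exp (z.re + E.re) * cos (v₀.arg + z.im + E.im)) := by
      rw [h1, Complex.re_ofReal_mul, Complex.exp_re]
      simp only [Complex.add_re, Complex.mul_re, Complex.ofReal_re, Complex.I_re, mul_zero,
        Complex.ofReal_im, Complex.I_im, mul_one, sub_self, zero_add, Complex.add_im,
        Complex.mul_im, add_zero]
      rw [add_assoc v₀.arg]
    rw [h2, hvn1, Real.exp_add]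
    field_simp
  have hMd : |cos (v₀.arg + z.im + E.im) + ‖v‖ / (2 * n)| ≤
      25 * (1 + log (4 * ‖v‖ ^ 3)) / ‖v‖ := by
    rw [← hcos]
    exact h
  have hexp9 : exp 2 ≤ 9 := by
    have h4 : exp 2 = exp 1 * exp 1 := by
      rw [← Real.exp_add]
      norm_num
    have h5 := Real.exp_one_lt_d9
    have h6 := Real.exp_pos 1
    rw [h4]
    nlinarith
  have hlo : ‖v₀‖ / 9 ≤ ‖v‖ := by
    rw [hvn1, ← Real.exp_add]
    have h2 : (1 : ℝ) / 9 ≤ exp (z.re + E.re) := by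
      have h3 : exp (-2) ≤ exp (z.re + E.re) := Real.exp_le_exp.2 (by linarith)
      refine le_trans ?_ h3
      rw [Real.exp_neg, one_div, inv_le_inv₀ (by norm_num) (Real.exp_pos _)]
      exact hexp9
    nlinarith
  have hhi : ‖v‖ ≤ 9 * ‖v₀‖ := by
    rw [hvn1, ← Real.exp_add]
    have h2 : exp (z.re + E.re) ≤ 9 := (Real.exp_le_exp.2 (by linarith)).trans hexp9
    nlinarith
  have hlog1 : 1 ≤ log ‖v₀‖ := by
    rw [Real.le_log_iff_exp_le hV]
    have h5 := Real.exp_one_lt_d9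
    linarith
  have e1 : 25 * (1 + log (4 * ‖v‖ ^ 3)) / ‖v‖ ≤ 1350 * (log ‖v₀‖ / ‖v₀‖) := by
    have h1 : log (4 * ‖v‖ ^ 3) ≤ 5 * log ‖v₀‖ := by
      have h2 : 4 * ‖v‖ ^ 3 ≤ ‖v₀‖ ^ 5 := by
        have h3 : ‖v‖ ^ 3 ≤ (9 * ‖v₀‖) ^ 3 := pow_le_pow_left₀ (norm_nonneg _) hhi 3
        have h4 : (400 : ℝ) ^ 2 ≤ ‖v₀‖ ^ 2 := pow_le_pow_left₀ (by norm_num) hv0 2
        have h5 : 0 ≤ ‖v₀‖ ^ 3 := by positivity
        have h6 : ‖v₀‖ ^ 5 = ‖v₀‖ ^ 2 * ‖v₀‖ ^ 3 := by ring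
        rw [h6]
        nlinarith
      calc log (4 * ‖v‖ ^ 3) ≤ log (‖v₀‖ ^ 5) := Real.log_le_log (by positivity) h2
        _ = 5 * log ‖v₀‖ := by
            rw [Real.log_pow]
            norm_num
    have h2 : 1350 * (log ‖v₀‖ / ‖v₀‖) = 25 * (6 * log ‖v₀‖) * (9 / ‖v₀‖) := by ring
    have h3 : 1 / ‖v‖ ≤ 9 / ‖v₀‖ := by
      rw [div_le_div_iff₀ hvpos hV]
      linarith
    rw [h2, div_eq_mul_one_div]
    refine mul_le_mul (by linarith) h3 (by positivity) (by positivity)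
  have e2 : |cos (v₀.arg + z.im) - cos (v₀.arg + z.im + E.im)| ≤ β := by
    refine (Real.abs_cos_sub_cos_le _ _).trans ?_
    have : v₀.arg + z.im - (v₀.arg + z.im + E.im) = -E.im := by ring
    rw [this, abs_neg]
    exact him
  have e3 : |‖v₀‖ / (2 * n) * exp z.re - ‖v‖ / (2 * n)| ≤ 11 * β := by
    have h1 : ‖v₀‖ / (2 * n) * exp z.re - ‖v‖ / (2 * n) =
        -(‖v₀‖ / (2 * n) * exp z.re * (exp E.re - 1)) := by
      rw [hvn1]
      ring
    rw [h1, abs_neg, abs_mul]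
    have h2 : |exp E.re - 1| ≤ 2 * β :=
      (Real.abs_exp_sub_one_le (hre.trans hβ)).trans (by linarith)
    have h3 : ‖v₀‖ / (2 * n) ≤ 2 := by
      rw [div_le_iff₀ (by positivity)]
      linarith
    have h4 : exp z.re ≤ 11 / 4 := by
      have h5 := Real.exp_one_lt_d9
      have h6 : exp z.re ≤ exp 1 := Real.exp_le_exp.2 hz2
      linarith
    have h5 : |‖v₀‖ / (2 * n) * exp z.re| ≤ 11 / 2 := by
      rw [abs_of_nonneg (by positivity)]
      have h6 : 0 < exp z.re := Real.exp_pos _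
      have h7 : 0 ≤ ‖v₀‖ / (2 * n) := by positivity
      nlinarith
    calc |‖v₀‖ / (2 * n) * exp z.re| * |exp E.re - 1| ≤ 11 / 2 * (2 * β) :=
          mul_le_mul h5 h2 (abs_nonneg _) (by norm_num)
      _ = 11 * β := by ring
  have e4 : cos (v₀.arg + z.im) + ‖v₀‖ / (2 * n) * exp z.re =
      (cos (v₀.arg + z.im + E.im) + ‖v‖ / (2 * n)) +
      (cos (v₀.arg + z.im) - cos (v₀.arg + z.im + E.im)) +
      (‖v₀‖ / (2 * n) * exp z.re - ‖v‖ / (2 * n)) := by ring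
  rw [e4]
  refine (abs_add_le _ _).trans ?_
  have e5 := abs_add_le (cos (v₀.arg + z.im + E.im) + ‖v‖ / (2 * n))
    (cos (v₀.arg + z.im) - cos (v₀.arg + z.im + E.im))
  linarith

/-- The threshold. -/
noncomputable def thr (n k : ℕ) (c : ℂ) : ℝ :=
  30000 * (1 / 2) ^ k * (log (n * ‖c‖ ^ (n - 1)) / (n * ‖c‖ ^ (n - 1)))

lemma thr_bound {n i : ℕ} (hn : 16 ≤ n) {c : ℂ} (h : c ∈ EE n (i + 1)) :
    1350 * (log ‖W n c (i + 1)‖ / ‖W n c (i + 1)‖) + 12 * Bt n c i ≤ thr n (i + 1) c := by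
  obtain ⟨hs, hρ, hR, hWn, -⟩ := h
  have hn16 : (16 : ℝ) ≤ n := by exact_mod_cast hn
  unfold thr
  set s : ℝ := n * ‖c‖ ^ (n - 1) with hsd
  have hs0 : 0 < s := by linarith
  have hlog1 : 1 ≤ log s := by
    rw [Real.le_log_iff_exp_le hs0]
    have h5 := Real.exp_one_lt_d9
    linarith
  have hls : 1 / s ≤ log s / s := div_le_div_of_nonneg_right hlog1 hs0.le
  rcases i with _ | j
  · have e1 : ‖W n c (0 + 1)‖ = s := norm_W_one n c
    rw [e1]
    show 1350 * (log s / s) + 12 * (1 / ((n - 1 : ℕ) : ℝ)) ≤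
      30000 * (1 / 2) ^ (0 + 1) * (log s / s)
    have hm : ((n - 1 : ℕ) : ℝ) = n - 1 := by
      rw [Nat.cast_sub (by omega)]
      simp
    have h2 : s ≤ 2 * n := by
      rw [hsd]
      nlinarith
    have h3 : 12 * (1 / ((n - 1 : ℕ) : ℝ)) ≤ 100 * (1 / s) := by
      rw [mul_one_div, mul_one_div, hm, div_le_div_iff₀ (by linarith) hs0]
      linarith
    have h4 : (30000 : ℝ) * (1 / 2) ^ (0 + 1) = 15000 := by norm_num
    rw [h4]
    have h5 : 0 ≤ log s / s := by positivity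
    linarith
  · have hR' : ∀ j', 1 ≤ j' → j' < j + 1 + 1 → 4 * ‖W n c j'‖ ^ 3 ≤ ‖Y n c j'‖ ^ n :=
      fun j' hj hjk => (hR j' hj hjk).1
    have hg := grow (k := j + 1 + 1) hs hR' (j + 1) (by omega) (by omega)
    have e0 : j + 1 - 1 = j := by omega
    rw [e0, ← hsd] at hg
    have hRj := hR' (j + 1) (by omega) (by omega)
    set V := ‖W n c (j + 1)‖ with hV
    have hpow : (1 : ℝ) ≤ 2 ^ j := one_le_pow₀ (by norm_num)
    have hV400 : 400 ≤ V := by nlinarith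
    have h1 : V ≤ √‖W n c (j + 1 + 1)‖ := by
      apply Real.le_sqrt_of_sq_le
      rw [norm_W_succ, ← hsd]
      have h2 : V ^ 2 ≤ 4 * V ^ 3 := by
        have : 0 ≤ V ^ 2 := by positivity
        nlinarith
      calc V ^ 2 ≤ ‖Y n c (j + 1)‖ ^ n := h2.trans hRj
        _ = 1 * ‖Y n c (j + 1)‖ ^ n := (one_mul _).symm
        _ ≤ s * ‖Y n c (j + 1)‖ ^ n :=
            mul_le_mul_of_nonneg_right (by linarith) (by positivity)
    set q := √‖W n c (j + 1 + 1)‖ with hq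
    have hq0 : 0 < q := by linarith
    have hqq : ‖W n c (j + 1 + 1)‖ = q * q := (Real.mul_self_sqrt (norm_nonneg _)).symm
    have hlq : log ‖W n c (j + 1 + 1)‖ / ‖W n c (j + 1 + 1)‖ ≤ 2 * (1 / q) := by
      rw [hqq, Real.log_mul hq0.ne' hq0.ne']
      have h2 : log q ≤ q := (Real.log_le_sub_one_of_pos hq0).trans (by linarith)
      rw [div_le_iff₀ (by positivity)]
      have h3 : 2 * (1 / q) * (q * q) = 2 * q := by
        field_simp
      rw [h3]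
      linarith
    have hb : Bt n c (j + 1) = 400 * (1 / V) := by
      show 400 / V = 400 * (1 / V)
      ring
    rw [hb]
    have h3 : 1 / q ≤ 1 / V := one_div_le_one_div_of_le (by linarith) h1
    have h5 : 1 / V ≤ 1 / (2 ^ j * s) := one_div_le_one_div_of_le (by positivity) hg
    have h6 : 7500 * (1 / (2 ^ j * s)) = 30000 * (1 / 2) ^ (j + 1 + 1) * (1 / s) := by
      have h7 : (1 / 2 : ℝ) ^ (j + 1 + 1) = 1 / (4 * 2 ^ j) := by
        rw [one_div, inv_pow, pow_succ, pow_succ]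
        field_simp
        norm_num
      rw [h7]
      field_simp
      norm_num
    have h7 : 30000 * (1 / 2) ^ (j + 1 + 1) * (1 / s) ≤
        30000 * (1 / 2) ^ (j + 1 + 1) * (log s / s) :=
      mul_le_mul_of_nonneg_left hls (by positivity)
    linarith

lemma thr_nonneg {n : ℕ} (k : ℕ) {c : ℂ} (hs : 400 ≤ n * ‖c‖ ^ (n - 1)) : 0 ≤ thr n k c := by
  unfold thr
  have h1 : 0 ≤ log (n * ‖c‖ ^ (n - 1)) := Real.log_nonneg (by linarith)
  have h2 : 0 ≤ n * ‖c‖ ^ (n - 1) := by linarith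
  positivity

lemma local_subset {n i : ℕ} (hn : 16 ≤ n) {c₀ : ℂ} (h0 : c₀ ∈ EE n (i + 1)) :
    EE n (i + 1) ∩ Metric.closedBall c₀ (‖c₀‖ / ‖Gd n c₀ i‖) ⊆
      {c : ℂ | (c - c₀) * (Gd n c₀ i / c₀) ∈
        TT (W n c₀ (i + 1)).arg (‖W n c₀ (i + 1)‖ / (2 * n)) (thr n (i + 1) c₀)} := by
  rintro c ⟨hc, hcb⟩
  have hthr := thr_bound hn h0
  obtain ⟨hs, hρ, hR, hWn, -⟩ := h0
  have hn16 : (16 : ℝ) ≤ n := by exact_mod_cast hn
  have hc0 : c₀ ≠ 0 := by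
    rintro rfl
    have h3 : n - 1 ≠ 0 := by omega
    rw [norm_zero, zero_pow h3] at hs
    norm_num at hs
  have hcpos : 0 < ‖c₀‖ := norm_pos_iff.2 hc0
  have hR1 : ∀ j, 1 ≤ j → j ≤ i → Rt n c₀ j := fun j hj hji => hR j hj (by omega)
  have hR' : ∀ j, 1 ≤ j → j < i + 1 → 4 * ‖W n c₀ j‖ ^ 3 ≤ ‖Y n c₀ j‖ ^ n :=
    fun j hj hjk => (hR j hj hjk).1
  have hG := Gd_bounds hn hs hR1 i le_rfl
  have hm : (15 : ℝ) ≤ ((n - 1 : ℕ) : ℝ) := by
    have : 15 ≤ n - 1 := by omega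
    exact_mod_cast this
  have hGpos : 0 < ‖Gd n c₀ i‖ := by linarith
  set z : ℂ := (c - c₀) * (Gd n c₀ i / c₀) with hz
  set ζ : ℂ := (c - c₀) / c₀ with hζ
  have hzζ : Gd n c₀ i * ζ = z := by
    rw [hz, hζ]
    field_simp
  have hcζ : c₀ * (1 + ζ) = c := by
    rw [hζ]
    field_simp
    ring
  have hz1 : ‖z‖ ≤ 1 := by
    rw [Metric.mem_closedBall, Complex.dist_eq, le_div_iff₀ hGpos] at hcb
    rw [hz, norm_mul, norm_div, ← mul_div_assoc, div_le_one hcpos]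
    exact hcb
  obtain ⟨E, hE1, hE2⟩ := W_expand hn hs hR1 i le_rfl ζ (by rw [hzζ]; exact hz1)
  rw [hcζ, hzζ] at hE2
  rw [hzζ] at hE1
  have hBt0 : 0 ≤ Bt n c₀ i := by
    rcases i with _ | j
    · show 0 ≤ 1 / ((n - 1 : ℕ) : ℝ)
      positivity
    · show 0 ≤ 400 / ‖W n c₀ (j + 1)‖
      positivity
  have hBt1 : Bt n c₀ i ≤ 1 := by
    rcases i with _ | j
    · show 1 / ((n - 1 : ℕ) : ℝ) ≤ 1
      rw [div_le_one (by linarith)]
      linarith
    · show 400 / ‖W n c₀ (j + 1)‖ ≤ 1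
      have hW' := le_W (k := j + 1 + 1) hs hR' (j := j + 1) (by omega) (by omega)
      rw [div_le_one (by linarith)]
      linarith
  have hE3 : ‖E‖ ≤ Bt n c₀ i := by
    refine hE1.trans ?_
    have : ‖z‖ ^ 2 ≤ 1 := pow_le_one₀ (norm_nonneg _) hz1
    nlinarith
  have hW400 : 400 ≤ ‖W n c₀ (i + 1)‖ :=
    hs.trans (le_W (k := i + 1) hs hR' (j := i + 1) (by omega) le_rfl)
  have hMd : Md n (W n c₀ (i + 1) * Complex.exp (z + E)) := by
    rw [← hE2]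
    exact hc.2.2.2.2
  have hfin := md_local hn hW400 hWn hz1 hE3 hBt1 hMd
  refine ⟨?_, ?_, hfin.trans hthr⟩
  · exact abs_le.1 ((Complex.abs_re_le_norm z).trans hz1)
  · exact abs_le.1 ((Complex.abs_im_le_norm z).trans hz1)

/-- Local area estimate. -/
lemma local_measure {n i : ℕ} (hn : 16 ≤ n) {c₀ : ℂ} (h0 : c₀ ∈ EE n (i + 1)) :
    volume (EE n (i + 1) ∩ Metric.closedBall c₀ (‖c₀‖ / ‖Gd n c₀ i‖)) ≤
      ENNReal.ofReal (32 * π * thr n (i + 1) c₀ * (‖c₀‖ / ‖Gd n c₀ i‖) ^ 2) := by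
  have hp : 0 < π := Real.pi_pos
  have hs := h0.1
  have hc0 : c₀ ≠ 0 := by
    rintro rfl
    have h3 : n - 1 ≠ 0 := by omega
    rw [norm_zero, zero_pow h3] at hs
    norm_num at hs
  have hm : (15 : ℝ) ≤ ((n - 1 : ℕ) : ℝ) := by
    have : 15 ≤ n - 1 := by omega
    exact_mod_cast this
  have hG := Gd_bounds hn hs (K := i) (fun j hj hji => h0.2.2.1 j hj (by omega)) i le_rfl
  have hGpos : 0 < ‖Gd n c₀ i‖ := by linarith
  have hG0 : Gd n c₀ i ≠ 0 := norm_pos_iff.1 hGpos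
  have hw : Gd n c₀ i / c₀ ≠ 0 := div_ne_zero hG0 hc0
  refine (measure_mono (local_subset hn h0)).trans ?_
  rw [volume_preimage_mul _ _ hw]
  have h1 := volume_TT_le (Complex.neg_pi_lt_arg (W n c₀ (i + 1))).le
    (Complex.arg_le_pi (W n c₀ (i + 1))) (κ := ‖W n c₀ (i + 1)‖ / (2 * n)) (by positivity)
    (thr_nonneg (i + 1) hs)
  refine (mul_le_mul_right h1 _).trans ?_
  rw [← ENNReal.ofReal_mul (by positivity)]
  refine ENNReal.ofReal_le_ofReal (le_of_eq ?_)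
  have h2 : (‖Gd n c₀ i / c₀‖ ^ 2)⁻¹ = (‖c₀‖ / ‖Gd n c₀ i‖) ^ 2 := by
    rw [norm_div, ← inv_pow, inv_div]
  rw [h2]
  ring

end Pool.Agent.W_1365a2_h11
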