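import Mathlib
import Pool.Agent.W_1365a2_h11.LocE

set_option autoImplicit false

/-!
# Area of the boundary of the Multibrot sets: covering argument
-/

namespace Pool.Agent.W_1365a2_h11

open MeasureTheory Real

/-- The region of integration. -/
def Reg (n : ℕ) (K : ℝ) : Set ℂ := {c | K / 2 ≤ n * ‖c‖ ^ (n - 1) ∧ ‖c‖ ≤ 4}

/-- The density. -/
noncomputable def HH (n : ℕ) (c : ℂ) : ENNReal :=
  ENNReal.ofReal (log (n * ‖c‖ ^ (n - 1)) / (n * ‖c‖ ^ (n - 1)))

/-- Undecided parameters outside a disc. -/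
def EK (n k : ℕ) (K : ℝ) : Set ℂ := EE n k ∩ {c | K ≤ n * ‖c‖ ^ (n - 1)}

lemma near_bounds {n i : ℕ} (hn : 16 ≤ n) {K : ℝ} {b c : ℂ}
    (hb : b ∈ EK n (i + 1) K)
    (hc : c ∈ Metric.closedBall b (‖b‖ / (5 * ‖Gd n b i‖))) :
    c ∈ Reg n K ∧ n * ‖c‖ ^ (n - 1) ≤ 2 * (n * ‖b‖ ^ (n - 1)) ∧
      4 / 5 * (n * ‖b‖ ^ (n - 1)) ≤ n * ‖c‖ ^ (n - 1) := by
  obtain ⟨⟨hs, hρ, hR, -, -⟩, hbK⟩ := hb
  have hbK' : K ≤ n * ‖b‖ ^ (n - 1) := hbK
  have hn0 : (0 : ℝ) < n := by
    have : 0 < n := by omega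
    exact_mod_cast this
  have hG := Gd_bounds hn hs (K := i) (fun j hj hji => hR j hj (by omega)) i le_rfl
  set m := n - 1 with hm
  have hm15 : (15 : ℝ) ≤ m := by
    have : 15 ≤ m := by omega
    exact_mod_cast this
  have hb0 : b ≠ 0 := by
    rintro rfl
    have h3 : m ≠ 0 := by omega
    rw [norm_zero, zero_pow h3] at hs
    norm_num at hs
  have hbpos : 0 < ‖b‖ := norm_pos_iff.2 hb0
  set x : ℝ := 1 / (5 * m) with hx
  have hx0 : 0 < x := by positivity
  have hmx : m * x = 1 / 5 := by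
    rw [hx]
    field_simp
  have hr : ‖b‖ / (5 * ‖Gd n b i‖) ≤ ‖b‖ * x := by
    rw [hx, mul_one_div]
    exact div_le_div_of_nonneg_left hbpos.le (by positivity) (by linarith)
  rw [Metric.mem_closedBall, Complex.dist_eq] at hc
  have hup : ‖c‖ ≤ ‖b‖ * (1 + x) := by
    have h1 : c = (c - b) + b := by ring
    rw [h1]
    refine (norm_add_le _ _).trans ?_
    linarith
  have hlo : ‖b‖ * (1 - x) ≤ ‖c‖ := by
    have h1 : ‖b‖ ≤ ‖c‖ + ‖c - b‖ := by
      have h2 : b = c - (c - b) := by ring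
      calc ‖b‖ = ‖c - (c - b)‖ := by rw [← h2]
        _ ≤ ‖c‖ + ‖c - b‖ := norm_sub_le _ _
    linarith
  have hx1 : x ≤ 1 / 75 := by
    rw [hx]
    exact one_div_le_one_div_of_le (by norm_num) (by linarith)
  have hb2 : ‖b‖ ≤ 2 := by
    by_contra hcon
    push Not at hcon
    have h4 : ‖b‖ ≤ ‖b‖ ^ m := by
      calc ‖b‖ = ‖b‖ ^ 1 := (pow_one _).symm
        _ ≤ ‖b‖ ^ m := pow_le_pow_right₀ (by linarith) (by omega)
    linarith
  have hpup : ‖c‖ ^ m ≤ ‖b‖ ^ m * 2 := by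
    calc ‖c‖ ^ m ≤ (‖b‖ * (1 + x)) ^ m := pow_le_pow_left₀ (norm_nonneg _) hup m
      _ = ‖b‖ ^ m * (1 + x) ^ m := mul_pow _ _ _
      _ ≤ ‖b‖ ^ m * 2 := by
          refine mul_le_mul_of_nonneg_left ?_ (by positivity)
          have h1 := pow_one_add_le (n := m) hx0.le (by linarith)
          linarith
  have hplo : ‖b‖ ^ m * (4 / 5) ≤ ‖c‖ ^ m := by
    calc ‖b‖ ^ m * (4 / 5) ≤ ‖b‖ ^ m * (1 - x) ^ m := by
          refine mul_le_mul_of_nonneg_left ?_ (by positivity)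
          have h1 := one_add_mul_le_pow (a := -x) (by linarith) m
          have h2 : (1 : ℝ) + m * -x = 4 / 5 := by
            have : (1 : ℝ) + m * -x = 1 - m * x := by ring
            rw [this, hmx]
            norm_num
          rw [h2] at h1
          exact h1
      _ = (‖b‖ * (1 - x)) ^ m := (mul_pow _ _ _).symm
      _ ≤ ‖c‖ ^ m := pow_le_pow_left₀ (by
          have : 0 ≤ 1 - x := by linarith
          positivity) hlo m
  have hplo' := mul_le_mul_of_nonneg_left hplo hn0.le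
  refine ⟨⟨?_, ?_⟩, ?_, ?_⟩
  · rw [← hm]
    linarith
  · have h1 : ‖b‖ * (1 + x) ≤ 2 * (1 + 1 / 75) :=
      mul_le_mul hb2 (by linarith) (by linarith) (by norm_num)
    linarith
  · have h1 := mul_le_mul_of_nonneg_left hpup hn0.le
    linarith
  · linarith

/-- The function `log s / s` varies slowly. -/
lemma log_div_le {s s' : ℝ} (hs : 400 ≤ s) (h1 : 4 / 5 * s ≤ s') (h2 : s' ≤ 2 * s) :
    1 / 4 * (log s / s) ≤ log s' / s' := by
  have hs0 : 0 < s := by linarith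
  have hs'0 : 0 < s' := by linarith
  have h3 : 1 / 2 * log s ≤ log s' := by
    have h4 : log s ≤ 2 * log s' := by
      calc log s ≤ log (s' ^ 2) := Real.log_le_log hs0 (by nlinarith)
        _ = 2 * log s' := by
            rw [Real.log_pow]
            norm_num
    linarith
  have h4 : 0 < log s := Real.log_pos (by linarith)
  rw [le_div_iff₀ hs'0]
  have h5 : 1 / 4 * (log s / s) * s' ≤ 1 / 4 * (log s / s) * (2 * s) :=
    mul_le_mul_of_nonneg_left h2 (by positivity)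
  have h6 : 1 / 4 * (log s / s) * (2 * s) = 1 / 2 * log s := by
    field_simp
    norm_num
  linarith

/-- One ball of the covering. -/
lemma ball_le {n i : ℕ} (hn : 16 ≤ n) {K : ℝ} {b : ℂ} (hb : b ∈ EK n (i + 1) K) :
    volume (EK n (i + 1) K ∩ Metric.closedBall b (‖b‖ / ‖Gd n b i‖)) ≤
      ENNReal.ofReal (96000000 * (1 / 2) ^ (i + 1)) *
        ∫⁻ c in Metric.closedBall b (‖b‖ / (5 * ‖Gd n b i‖)), HH n c := by
  have hp : 0 < π := Real.pi_pos
  have hsub : EK n (i + 1) K ∩ Metric.closedBall b (‖b‖ / ‖Gd n b i‖) ⊆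
      EE n (i + 1) ∩ Metric.closedBall b (‖b‖ / ‖Gd n b i‖) := fun c hc => ⟨hc.1.1, hc.2⟩
  refine (measure_mono hsub).trans ((local_measure hn hb.1).trans ?_)
  set r : ℝ := ‖b‖ / (5 * ‖Gd n b i‖) with hr
  have hr0 : 0 ≤ r := by positivity
  have hr5 : ‖b‖ / ‖Gd n b i‖ = 5 * r := by
    rw [hr]
    field_simp
  have hs := hb.1.1
  set h : ℝ := log (n * ‖b‖ ^ (n - 1)) / (n * ‖b‖ ^ (n - 1)) with hh
  have hh0 : 0 < h := by
    have h1 : 0 < log (n * ‖b‖ ^ (n - 1)) := Real.log_pos (by linarith)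
    have h2 : 0 < n * ‖b‖ ^ (n - 1) := by linarith
    positivity
  have h1 : ENNReal.ofReal (1 / 4 * h) * volume (Metric.closedBall b r) ≤
      ∫⁻ c in Metric.closedBall b r, HH n c := by
    rw [← setLIntegral_const]
    refine setLIntegral_mono' Metric.isClosed_closedBall.measurableSet fun c hc => ?_
    obtain ⟨hc1, hc2, hc3⟩ := near_bounds hn hb hc
    unfold HH
    exact ENNReal.ofReal_le_ofReal (log_div_le hs hc3 hc2)
  have h2 : ENNReal.ofReal (1 / 4 * h) * volume (Metric.closedBall b r) =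
      ENNReal.ofReal (1 / 4 * h * (π * r ^ 2)) := by
    rw [Complex.volume_closedBall, ENNReal.ofReal_mul (by positivity : (0 : ℝ) ≤ 1 / 4 * h),
      mul_comm π, ENNReal.ofReal_mul (by positivity : (0 : ℝ) ≤ r ^ 2), ENNReal.ofReal_pow hr0]
    congr 2
    rw [← NNReal.coe_real_pi, ENNReal.ofReal_coe_nnreal]
  rw [h2] at h1
  refine le_trans ?_ (mul_le_mul_right h1 _)
  rw [← ENNReal.ofReal_mul (by positivity)]
  refine ENNReal.ofReal_le_ofReal ?_
  rw [hr5]
  have h3 : thr n (i + 1) b = 30000 * (1 / 2) ^ (i + 1) * h := rfl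
  rw [h3]
  refine le_of_eq ?_
  ring

lemma volume_EK_le {n i : ℕ} (hn : 16 ≤ n) {K : ℝ} :
    volume (EK n (i + 1) K) ≤
      ENNReal.ofReal (96000000 * (1 / 2) ^ (i + 1)) * ∫⁻ c in Reg n K, HH n c := by
  set r : ℂ → ℝ := fun b => ‖b‖ / (5 * ‖Gd n b i‖) with hr
  have hfacts : ∀ b ∈ EK n (i + 1) K, 0 < ‖b‖ ∧ ‖b‖ ≤ 2 ∧ 15 ≤ ‖Gd n b i‖ := by
    intro b hb
    obtain ⟨⟨hs, hρ, hR, -, -⟩, -⟩ := hb
    have hG := Gd_bounds hn hs (K := i) (fun j hj hji => hR j hj (by omega)) i le_rfl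
    have hm15 : (15 : ℝ) ≤ ((n - 1 : ℕ) : ℝ) := by
      have : 15 ≤ n - 1 := by omega
      exact_mod_cast this
    have hb0 : b ≠ 0 := by
      rintro rfl
      have h3 : n - 1 ≠ 0 := by omega
      rw [norm_zero, zero_pow h3] at hs
      norm_num at hs
    refine ⟨norm_pos_iff.2 hb0, ?_, by linarith⟩
    by_contra hcon
    push Not at hcon
    have h4 : ‖b‖ ≤ ‖b‖ ^ (n - 1) := by
      calc ‖b‖ = ‖b‖ ^ 1 := (pow_one _).symm
        _ ≤ ‖b‖ ^ (n - 1) := pow_le_pow_right₀ (by linarith) (by omega)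
    linarith
  have hrpos : ∀ b ∈ EK n (i + 1) K, 0 < r b := by
    intro b hb
    obtain ⟨h1, h2, h3⟩ := hfacts b hb
    have : 0 < ‖Gd n b i‖ := by linarith
    positivity
  have hrle : ∀ b ∈ EK n (i + 1) K, r b ≤ 1 := by
    intro b hb
    obtain ⟨h1, h2, h3⟩ := hfacts b hb
    show ‖b‖ / (5 * ‖Gd n b i‖) ≤ 1
    rw [div_le_one (by linarith)]
    linarith
  obtain ⟨u, hut, hdisj, hcov⟩ := Vitali.exists_disjoint_subfamily_covering_enlargement_closedBall
    (EK n (i + 1) K) (fun c : ℂ => c) r 1 hrle 5 (by norm_num)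
  have hcount : u.Countable := by
    refine hdisj.countable_of_nonempty_interior fun b hb => ?_
    refine ⟨b, ?_⟩
    exact Metric.ball_subset_interior_closedBall (Metric.mem_ball_self (hrpos b (hut hb)))
  have hsub : EK n (i + 1) K ⊆
      ⋃ b ∈ u, (EK n (i + 1) K ∩ Metric.closedBall b (‖b‖ / ‖Gd n b i‖)) := by
    intro a ha
    obtain ⟨b, hb, hab⟩ := hcov a ha
    simp only [Set.mem_iUnion]
    refine ⟨b, hb, ha, ?_⟩
    have h1 : (5 : ℝ) * r b = ‖b‖ / ‖Gd n b i‖ := by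
      show (5 : ℝ) * (‖b‖ / (5 * ‖Gd n b i‖)) = ‖b‖ / ‖Gd n b i‖
      field_simp
    have h2 := hab (Metric.mem_closedBall_self (hrpos a ha).le)
    simp only [h1] at h2
    exact h2
  calc volume (EK n (i + 1) K)
      ≤ volume (⋃ b ∈ u, (EK n (i + 1) K ∩ Metric.closedBall b (‖b‖ / ‖Gd n b i‖))) :=
        measure_mono hsub
    _ ≤ ∑' b : u, volume (EK n (i + 1) K ∩
          Metric.closedBall (b : ℂ) (‖(b : ℂ)‖ / ‖Gd n b i‖)) :=
        measure_biUnion_le _ hcount _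
    _ ≤ ∑' b : u, ENNReal.ofReal (96000000 * (1 / 2) ^ (i + 1)) *
          ∫⁻ c in Metric.closedBall (b : ℂ) (r b), HH n c :=
        ENNReal.tsum_le_tsum fun b => ball_le hn (hut b.2)
    _ = ENNReal.ofReal (96000000 * (1 / 2) ^ (i + 1)) *
          ∑' b : u, ∫⁻ c in Metric.closedBall (b : ℂ) (r b), HH n c := ENNReal.tsum_mul_left
    _ = ENNReal.ofReal (96000000 * (1 / 2) ^ (i + 1)) *
          ∫⁻ c in ⋃ b ∈ u, Metric.closedBall b (r b), HH n c := by
        rw [lintegral_biUnion hcount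
          (fun b _ => Metric.isClosed_closedBall.measurableSet) hdisj]
    _ ≤ ENNReal.ofReal (96000000 * (1 / 2) ^ (i + 1)) * ∫⁻ c in Reg n K, HH n c := by
        refine mul_le_mul_right (lintegral_mono_set ?_) _
        intro c hc
        simp only [Set.mem_iUnion] at hc
        obtain ⟨b, hb, hcb⟩ := hc
        exact (near_bounds hn (hut hb) hcb).1

end Pool.Agent.W_1365a2_h11
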