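import Mathlib
import Pool.Agent.W_1365a2_h11.Vit
import Pool.Agent.W_1365a2_h11.Rad

set_option autoImplicit false

/-!
# Area of the boundary of the Multibrot sets: assembly
-/

namespace Pool.Agent.W_1365a2_h11

open MeasureTheory Real N62a1eb23

lemma rho_le_two {n : ℕ} (hn : 2 ≤ n) {c : ℂ} (hc : c ∈ frontier (multibrotSet n)) :
    ‖c‖ ^ (n - 1) ≤ 2 := by
  by_contra hcon
  push Not at hcon
  have hc0 : c ≠ 0 := by
    rintro rfl
    have h3 : n - 1 ≠ 0 := by omega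
    rw [norm_zero, zero_pow h3] at hcon
    norm_num at hcon
  have hne := not_escape_of_frontier hn hc0 hc
  have h1 : 1 < ‖Y n c 1‖ := by
    rw [Y_succ, Y_zero, one_pow, mul_one]
    have h2 : ‖c ^ (n - 1)‖ - ‖(1 : ℂ)‖ ≤ ‖c ^ (n - 1) + 1‖ := by
      have := norm_sub_norm_le (c ^ (n - 1)) (-1)
      simpa using this
    rw [norm_one, norm_pow, add_comm (c ^ (n - 1)) 1] at h2
    linarith
  have h2 := hne 1 h1
  have h3 : 1 ≤ ‖Y n c 1‖ ^ (n - 1) := one_le_pow₀ h1.le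
  nlinarith

lemma norm_le_two {n : ℕ} (hn : 2 ≤ n) {c : ℂ} (hc : c ∈ frontier (multibrotSet n)) :
    ‖c‖ ≤ 2 := by
  have h1 := rho_le_two hn hc
  by_contra hcon
  push Not at hcon
  have h4 : ‖c‖ ≤ ‖c‖ ^ (n - 1) := by
    calc ‖c‖ = ‖c‖ ^ 1 := (pow_one _).symm
      _ ≤ ‖c‖ ^ (n - 1) := pow_le_pow_right₀ (by linarith) (by omega)
  linarith

/-- The part of the boundary outside a disc. -/
lemma volume_outer_le {n : ℕ} (hn : 16 ≤ n) {K : ℝ} (hK : 400 ≤ K) :
    volume (frontier (multibrotSet n) ∩ {c | K ≤ n * ‖c‖ ^ (n - 1)}) ≤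
      ENNReal.ofReal (6144000000 * π * (1 + log K) / (K * (n - 1 : ℕ))) := by
  have hp : 0 < π := Real.pi_pos
  have hlog : 0 ≤ log K := Real.log_nonneg (by linarith)
  have hsub : frontier (multibrotSet n) ∩ {c | K ≤ n * ‖c‖ ^ (n - 1)} ⊆
      ⋃ i : ℕ, EK n (i + 1) K := by
    rintro c ⟨hc, hcK⟩
    have hcK' : K ≤ n * ‖c‖ ^ (n - 1) := hcK
    obtain ⟨k, hk, hkE⟩ := classify (by omega) hc (hK.trans hcK')
    rw [Set.mem_iUnion]
    refine ⟨k - 1, ?_⟩
    have e : k - 1 + 1 = k := by omega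
    rw [e]
    exact ⟨hkE, hcK⟩
  have h1 : ∀ i : ℕ, volume (EK n (i + 1) K) ≤
      ENNReal.ofReal (96000000 * (1 / 2) ^ (i + 1)) *
        ENNReal.ofReal (64 * π * (1 + log K) / (K * (n - 1 : ℕ))) := by
    intro i
    refine (volume_EK_le hn).trans ?_
    exact mul_le_mul_right (lintegral_reg_le hn hK) _
  have h2 : ∑' i : ℕ, ENNReal.ofReal (96000000 * (1 / 2) ^ (i + 1)) =
      ENNReal.ofReal 96000000 := by
    have e1 : ∀ i : ℕ, (96000000 : ℝ) * (1 / 2) ^ (i + 1) = 48000000 * (1 / 2) ^ i := by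
      intro i
      rw [pow_succ]
      ring
    simp_rw [e1]
    rw [← ENNReal.ofReal_tsum_of_nonneg]
    · congr 1
      rw [tsum_mul_left, tsum_geometric_two]
      norm_num
    · intro i
      positivity
    · exact summable_geometric_two.mul_left _
  calc volume (frontier (multibrotSet n) ∩ {c | K ≤ n * ‖c‖ ^ (n - 1)})
      ≤ volume (⋃ i : ℕ, EK n (i + 1) K) := measure_mono hsub
    _ ≤ ∑' i : ℕ, volume (EK n (i + 1) K) := measure_iUnion_le _
    _ ≤ ∑' i : ℕ, ENNReal.ofReal (96000000 * (1 / 2) ^ (i + 1)) *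
        ENNReal.ofReal (64 * π * (1 + log K) / (K * (n - 1 : ℕ))) := ENNReal.tsum_le_tsum h1
    _ = ENNReal.ofReal 96000000 * ENNReal.ofReal (64 * π * (1 + log K) / (K * (n - 1 : ℕ))) := by
        rw [ENNReal.tsum_mul_right, h2]
    _ = ENNReal.ofReal (6144000000 * π * (1 + log K) / (K * (n - 1 : ℕ))) := by
        rw [← ENNReal.ofReal_mul (by norm_num)]
        congr 1
        ring

/-- The whole boundary. -/
lemma volume_frontier_le {n : ℕ} (hn : 16 ≤ n) :
    volume (frontier (multibrotSet n)) ≤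
      ENNReal.ofReal ((8 * π * log 1200 + 6144000000 * π * (1 + log 400) / 400) /
        (n - 1 : ℕ)) := by
  have hp : 0 < π := Real.pi_pos
  have hsub : frontier (multibrotSet n) ⊆
      {c : ℂ | 1 ≤ 3 * (n : ℝ) * ‖c‖ ^ (n - 1) ∧ n * ‖c‖ ^ (n - 1) ≤ 400} ∪
        (frontier (multibrotSet n) ∩ {c | 400 ≤ n * ‖c‖ ^ (n - 1)}) := by
    intro c hc
    rcases le_total (n * ‖c‖ ^ (n - 1)) 400 with h | h
    · exact Or.inl ⟨(frontier_subset_bad (by omega) hc).1, h⟩
    · exact Or.inr ⟨hc, h⟩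
  have hl1 : 0 ≤ log 1200 := Real.log_nonneg (by norm_num)
  have hl2 : 0 ≤ log 400 := Real.log_nonneg (by norm_num)
  refine (measure_mono hsub).trans ((measure_union_le _ _).trans ?_)
  refine (add_le_add (volume_annulus_le hn) (volume_outer_le hn le_rfl)).trans ?_
  rw [← ENNReal.ofReal_add (by positivity) (by positivity)]
  refine ENNReal.ofReal_le_ofReal (le_of_eq ?_)
  rw [add_div, div_div]

end Pool.Agent.W_1365a2_h11
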