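import Mathlib
import Pool.Agent.W_1365a2_h11.Geo
import Pool.Agent.W_1365a2_h11.Ang

set_option autoImplicit false

/-!
# Area of the boundary of the Multibrot sets: integration
-/

namespace Pool.Agent.W_1365a2_h11

open MeasureTheory Real

/-- Radii and angles of the undecided parameters. -/
def Pol (n : ℕ) : Set (ℝ × ℝ) :=
  {p | 1 ≤ 3 * (n : ℝ) * p.1 ^ (n - 1) ∧ p.1 ≤ 2 ∧
      |cos ((n - 1 : ℕ) * p.2) + p.1 ^ (n - 1) / 2| ≤ 18 * log (6 * n) / (n * p.1 ^ (n - 1))}

lemma measurableSet_pol (n : ℕ) : MeasurableSet (Pol n) := by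
  have e1 : MeasurableSet {p : ℝ × ℝ | 1 ≤ 3 * (n : ℝ) * p.1 ^ (n - 1)} :=
    measurableSet_le measurable_const ((measurable_fst.pow_const _).const_mul _)
  have e2 : MeasurableSet {p : ℝ × ℝ | p.1 ≤ 2} := measurableSet_le measurable_fst measurable_const
  have e3 : MeasurableSet {p : ℝ × ℝ |
      |cos ((n - 1 : ℕ) * p.2) + p.1 ^ (n - 1) / 2| ≤ 18 * log (6 * n) / (n * p.1 ^ (n - 1))} := by
    refine measurableSet_le ?_ ?_
    · exact (continuous_abs.measurable.comp
        (((Real.measurable_cos.comp (measurable_snd.const_mul _))).add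
          ((measurable_fst.pow_const _).div_const _)))
    · exact measurable_const.div ((measurable_fst.pow_const _).const_mul _)
  exact e1.inter (e2.inter e3)

/-- The radial density. -/
noncomputable def dens (n : ℕ) (r : ℝ) : ENNReal :=
  (Set.Icc ((1 / (3 * (n : ℝ))) ^ ((1 : ℝ) / (n - 1 : ℕ)))
      ((18 * log (6 * n) / n) ^ ((1 : ℝ) / (n - 1 : ℕ)))).indicator
    (fun r => ENNReal.ofReal (8 * π * r⁻¹)) r +
  (Set.Ioi ((18 * log (6 * n) / n) ^ ((1 : ℝ) / (n - 1 : ℕ)))).indicator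
    (fun r => ENNReal.ofReal (8 * π * √(18 * log (6 * n) / n) *
      r ^ (-((n - 1 : ℕ) : ℝ) / 2 - 1))) r

lemma slice_le {n : ℕ} (hn : 2 ≤ n) {r : ℝ} (hr : 0 < r) :
    ENNReal.ofReal r * volume {θ : ℝ | θ ∈ Set.Ioo (-π) π ∧ (r, θ) ∈ Pol n} ≤ dens n r := by
  have hp : 0 < π := Real.pi_pos
  have hn1 : (2 : ℝ) ≤ n := by exact_mod_cast hn
  have hn0 : (0 : ℝ) < n := by linarith
  have hL : 0 < log (6 * n) := Real.log_pos (by linarith)
  by_cases h0 : ∃ θ, (r, θ) ∈ Pol n
  swap
  · have h1 : {θ : ℝ | θ ∈ Set.Ioo (-π) π ∧ (r, θ) ∈ Pol n} = ∅ := by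
      ext θ
      simp only [Set.mem_ofPred_eq, Set.mem_empty_iff_false, iff_false]
      exact fun h => h0 ⟨θ, h.2⟩
    rw [h1, measure_empty, mul_zero]
    exact zero_le
  obtain ⟨θ₀, hθ₀⟩ := h0
  obtain ⟨h1, h2, -⟩ := hθ₀
  simp only at h1 h2
  set m := n - 1 with hm
  have hm1 : 1 ≤ m := by omega
  have hm0 : (0 : ℝ) < m := by exact_mod_cast hm1
  set ρ := r ^ m with hρ
  have hρ0 : 0 < ρ := by positivity
  set K : ℝ := 18 * log (6 * n) with hK
  have hK0 : 0 < K := by positivity
  have hρr : ρ ^ ((1 : ℝ) / m) = r := by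
    rw [hρ, one_div]
    exact Real.pow_rpow_inv_natCast hr.le (by omega)
  have hr0 : (1 / (3 * (n : ℝ))) ^ ((1 : ℝ) / m) ≤ r := by
    rw [← hρr]
    refine Real.rpow_le_rpow (by positivity) ?_ (by positivity)
    rw [div_le_iff₀ (by positivity)]
    linarith
  have hr4 : r ≤ 4 * r⁻¹ := by
    rw [← div_eq_mul_inv, le_div_iff₀ hr]
    nlinarith
  rcases le_or_gt r ((K / n) ^ ((1 : ℝ) / m)) with h3 | h3
  · have hd : dens n r = ENNReal.ofReal (8 * π * r⁻¹) := by
      unfold dens
      rw [Set.indicator_of_mem, Set.indicator_of_notMem, add_zero]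
      · exact fun h => absurd h3 (not_le.2 h)
      · exact ⟨hr0, h3⟩
    rw [hd]
    have h4 : volume {θ : ℝ | θ ∈ Set.Ioo (-π) π ∧ (r, θ) ∈ Pol n} ≤ ENNReal.ofReal (2 * π) := by
      refine (measure_mono (fun θ hθ => hθ.1)).trans ?_
      rw [Real.volume_Ioo]
      exact ENNReal.ofReal_le_ofReal (by linarith)
    calc ENNReal.ofReal r * volume {θ : ℝ | θ ∈ Set.Ioo (-π) π ∧ (r, θ) ∈ Pol n}
        ≤ ENNReal.ofReal (4 * r⁻¹) * ENNReal.ofReal (2 * π) :=
          mul_le_mul' (ENNReal.ofReal_le_ofReal hr4) h4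
      _ = ENNReal.ofReal (8 * π * r⁻¹) := by
          rw [← ENNReal.ofReal_mul (by positivity)]
          congr 1
          ring
  · have hd : dens n r = ENNReal.ofReal (8 * π * √(K / n) * r ^ (-(m : ℝ) / 2 - 1)) := by
      unfold dens
      rw [Set.indicator_of_notMem, Set.indicator_of_mem, zero_add]
      · exact h3
      · exact fun h => absurd h.2 (not_le.2 h3)
    rw [hd]
    have h4 : volume {θ : ℝ | θ ∈ Set.Ioo (-π) π ∧ (r, θ) ∈ Pol n} ≤
        ENNReal.ofReal (2 * π * √(K / (n * ρ))) := by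
      refine (measure_mono ?_).trans (volume_angles_le hm1 (ρ / 2) (a := K / (n * ρ))
        (by positivity))
      rintro θ ⟨ha, hb⟩
      exact ⟨ha, hb.2.2⟩
    have h5 : √(K / (n * ρ)) = √(K / n) * r ^ (-(m : ℝ) / 2) := by
      have h6 : K / (n * ρ) = K / n * (ρ⁻¹) := by field_simp
      rw [h6, Real.sqrt_mul (by positivity)]
      congr 1
      rw [Real.sqrt_eq_rpow, hρ, ← Real.rpow_natCast, ← Real.rpow_neg hr.le, ← Real.rpow_mul hr.le]
      congr 1
      ring
    calc ENNReal.ofReal r * volume {θ : ℝ | θ ∈ Set.Ioo (-π) π ∧ (r, θ) ∈ Pol n}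
        ≤ ENNReal.ofReal (4 * r⁻¹) * ENNReal.ofReal (2 * π * √(K / (n * ρ))) :=
          mul_le_mul' (ENNReal.ofReal_le_ofReal hr4) h4
      _ = ENNReal.ofReal (8 * π * √(K / n) * r ^ (-(m : ℝ) / 2 - 1)) := by
          rw [← ENNReal.ofReal_mul (by positivity), h5, Real.rpow_sub_one hr.ne']
          congr 1
          ring

lemma lintegral_dens_le {n : ℕ} (hn : 2 ≤ n) :
    ∫⁻ r in Set.Ioi 0, dens n r ≤
      ENNReal.ofReal (8 * π / (n - 1 : ℕ) * (log (54 * log (6 * n)) + 2)) := by
  have hp : 0 < π := Real.pi_pos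
  have hn1 : (2 : ℝ) ≤ n := by exact_mod_cast hn
  have hn0 : (0 : ℝ) < n := by linarith
  have hL1 : 1 ≤ log (6 * n) := by
    rw [Real.le_log_iff_exp_le (by positivity)]
    have := Real.exp_one_lt_d9
    linarith
  set m := n - 1 with hm
  have hm1 : 1 ≤ m := by omega
  have hm0 : (0 : ℝ) < m := by exact_mod_cast hm1
  set K : ℝ := 18 * log (6 * n) with hK
  have hK0 : 0 < K := by positivity
  set a : ℝ := (1 / (3 * (n : ℝ))) ^ ((1 : ℝ) / m) with ha
  set b : ℝ := (K / n) ^ ((1 : ℝ) / m) with hb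
  have ha0 : 0 < a := Real.rpow_pos_of_pos (by positivity) _
  have hb0 : 0 < b := Real.rpow_pos_of_pos (by positivity) _
  have hab : a ≤ b := by
    refine Real.rpow_le_rpow (by positivity) ?_ (by positivity)
    rw [div_le_div_iff₀ (by positivity) hn0]
    nlinarith
  have hsplit : ∀ r, dens n r = (Set.Icc a b).indicator (fun r => ENNReal.ofReal (8 * π * r⁻¹)) r +
      (Set.Ioi b).indicator (fun r => ENNReal.ofReal (8 * π * √(K / n) *
      r ^ (-(m : ℝ) / 2 - 1))) r := fun r => rfl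
  have h1 : ∫⁻ r in Set.Ioi 0, dens n r ≤ ∫⁻ r, dens n r := setLIntegral_le_lintegral _ _
  have h2 : ∫⁻ r, dens n r = (∫⁻ r in Set.Icc a b, ENNReal.ofReal (8 * π * r⁻¹)) +
      ∫⁻ r in Set.Ioi b, ENNReal.ofReal (8 * π * √(K / n) * r ^ (-(m : ℝ) / 2 - 1)) := by
    simp_rw [hsplit]
    rw [lintegral_add_left, lintegral_indicator measurableSet_Icc,
      lintegral_indicator measurableSet_Ioi]
    refine Measurable.indicator ?_ measurableSet_Icc
    exact ENNReal.measurable_ofReal.comp (measurable_inv.const_mul _)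
  have h3 : (∫⁻ r in Set.Icc a b, ENNReal.ofReal (8 * π * r⁻¹)) =
      ENNReal.ofReal (8 * π / m * log (54 * log (6 * n))) := by
    rw [← ofReal_integral_eq_lintegral_ofReal]
    · congr 1
      rw [integral_Icc_eq_integral_Ioc, ← intervalIntegral.integral_of_le hab,
        intervalIntegral.integral_const_mul, integral_inv_of_pos ha0 hb0]
      have h4 : b / a = (54 * log (6 * n)) ^ ((1 : ℝ) / m) := by
        rw [hb, ha, ← Real.div_rpow (by positivity) (by positivity)]
        congr 1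
        rw [hK]
        field_simp
        ring
      rw [h4, Real.log_rpow (by positivity)]
      ring
    · refine ContinuousOn.integrableOn_Icc ?_
      refine ContinuousOn.mul continuousOn_const ?_
      exact continuousOn_inv₀.mono fun r hr => by
        have : 0 < r := lt_of_lt_of_le ha0 hr.1
        exact this.ne'
    · filter_upwards [ae_restrict_mem measurableSet_Icc] with r hr
      have : 0 < r := lt_of_lt_of_le ha0 hr.1
      simp only [Pi.zero_apply]
      positivity
  have hexp : -(m : ℝ) / 2 - 1 < -1 := by linarith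
  have h5 : (∫⁻ r in Set.Ioi b, ENNReal.ofReal (8 * π * √(K / n) * r ^ (-(m : ℝ) / 2 - 1))) =
      ENNReal.ofReal (8 * π / m * 2) := by
    rw [← ofReal_integral_eq_lintegral_ofReal]
    · congr 1
      rw [integral_const_mul, integral_Ioi_rpow_of_lt hexp hb0]
      have h6 : b ^ (-(m : ℝ) / 2 - 1 + 1) = (√(K / n))⁻¹ := by
        rw [hb, ← Real.rpow_mul (by positivity), Real.sqrt_eq_rpow, ← Real.rpow_neg (by positivity)]
        congr 1
        field_simp
        ring
      rw [h6]
      have h7 : √(K / n) ≠ 0 := by positivity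
      have h8 : -(m : ℝ) / 2 - 1 + 1 = -(m / 2) := by ring
      rw [h8]
      field_simp
    · exact (integrableOn_Ioi_rpow_of_lt hexp hb0).const_mul _
    · filter_upwards [ae_restrict_mem measurableSet_Ioi] with r hr
      have : 0 < r := lt_trans hb0 hr
      simp only [Pi.zero_apply]
      positivity
  rw [h2, h3, h5, ← ENNReal.ofReal_add] at h1
  · refine h1.trans (le_of_eq ?_)
    congr 1
    ring
  · have : 0 ≤ log (54 * log (6 * n)) := Real.log_nonneg (by linarith)
    positivity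
  · positivity

lemma volume_bad_le {n : ℕ} (hn : 2 ≤ n) :
    volume (Bad n) ≤
      ENNReal.ofReal (8 * π / (n - 1 : ℕ) * (log (54 * log (6 * n)) + 2)) := by
  have hclosed : IsClosed (Bad n) := by
    have e1 : IsClosed {c : ℂ | 1 ≤ 3 * (n : ℝ) * ‖c‖ ^ (n - 1)} :=
      isClosed_le continuous_const (by fun_prop)
    have e2 : IsClosed {c : ℂ | 1 - (2 + 2 * Real.log (2 * n)) / n ≤ ‖1 + c ^ (n - 1)‖} :=
      isClosed_le continuous_const (by fun_prop)
    have e3 : IsClosed {c : ℂ | ‖1 + c ^ (n - 1)‖ ≤ 1} := isClosed_le (by fun_prop) continuous_const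
    have e4 : IsClosed {c : ℂ | ‖c‖ ^ (n - 1) * ‖1 + c ^ (n - 1)‖ ^ (n - 1) ≤ 2} :=
      isClosed_le (by fun_prop) continuous_const
    exact e1.inter (e2.inter (e3.union e4))
  have hmeas := hclosed.measurableSet
  have h1 : volume (Bad n) = ∫⁻ c, (Bad n).indicator 1 c := by
    rw [lintegral_indicator_one hmeas]
  rw [h1, ← Complex.lintegral_comp_polarCoord_symm]
  have h2 : (∫⁻ p in polarCoord.target, ENNReal.ofReal p.1 •
      (Bad n).indicator 1 (Complex.polarCoord.symm p)) ≤
      ∫⁻ p in Set.Ioi (0 : ℝ) ×ˢ Set.Ioo (-π) π, ENNReal.ofReal p.1 * (Pol n).indicator 1 p := by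
    rw [polarCoord_target]
    refine setLIntegral_mono' (measurableSet_Ioi.prod measurableSet_Ioo) ?_
    rintro ⟨r, θ⟩ ⟨hr, hθ⟩
    rw [smul_eq_mul]
    refine mul_le_mul_right ?_ _
    by_cases h : Complex.polarCoord.symm (r, θ) ∈ Bad n
    · have h3 : (r, θ) ∈ Pol n := by
        rw [Complex.polarCoord_symm_apply] at h
        have h4 := bad_polar hn (r := r) (θ := θ) hr (by simpa using h)
        exact h4
      rw [Set.indicator_of_mem h, Set.indicator_of_mem h3]
      exact le_rfl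
    · rw [Set.indicator_of_notMem h]
      exact zero_le
  refine h2.trans ?_
  have hmp : Measurable fun p : ℝ × ℝ => ENNReal.ofReal p.1 * (Pol n).indicator 1 p :=
    (ENNReal.measurable_ofReal.comp measurable_fst).mul
      (measurable_one.indicator (measurableSet_pol n))
  rw [Measure.volume_eq_prod, ← Measure.prod_restrict, lintegral_prod _ hmp.aemeasurable]
  refine le_trans ?_ (lintegral_dens_le hn)
  refine setLIntegral_mono' measurableSet_Ioi ?_
  intro r hr
  refine le_trans (le_of_eq ?_) (slice_le hn hr)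
  have hms : MeasurableSet {θ : ℝ | (r, θ) ∈ Pol n} :=
    measurable_prodMk_left (measurableSet_pol n)
  have h6 : ∀ θ, ENNReal.ofReal (r, θ).1 * (Pol n).indicator (1 : ℝ × ℝ → ENNReal) (r, θ) =
      ENNReal.ofReal r * ({θ : ℝ | (r, θ) ∈ Pol n}).indicator (1 : ℝ → ENNReal) θ := by
    intro θ
    by_cases h : (r, θ) ∈ Pol n
    · rw [Set.indicator_of_mem h, Set.indicator_of_mem (by exact h)]
      rfl
    · rw [Set.indicator_of_notMem h, Set.indicator_of_notMem (by exact h)]
  simp_rw [h6]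
  rw [lintegral_const_mul _ (measurable_one.indicator hms), lintegral_indicator_one hms,
    Measure.restrict_apply hms]
  congr 2
  ext θ
  simp only [Set.mem_inter_iff, Set.mem_ofPred_eq]
  exact and_comm

end Pool.Agent.W_1365a2_h11
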