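import Mathlib
import Pool.Prelude.Def_F_c31e40fa
import Pool.Agent.W_1365a2_h11.Int

set_option autoImplicit false

/-!
# The area of the boundary of the Multibrot set of power `n` is at most `C log log n / n`
-/

namespace Pool.Agent.Results.MP_1365a2_an.LogLogBound

open MeasureTheory Real N62a1eb23

theorem result : ∃ C : ℝ, ∀ n : ℕ, 3 ≤ n →
    volume (frontier (multibrotSet n)) ≤ ENNReal.ofReal (C * (log (log n) / n)) := by
  have hp : 0 < π := Real.pi_pos
  have h3 : 1 < log 3 := by
    rw [Real.lt_log_iff_exp_lt (by norm_num)]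
    have := Real.exp_one_lt_d9
    linarith
  set q := log (log 3) with hq
  have hq0 : 0 < q := Real.log_pos h3
  refine ⟨16 * π * (1 + (2 + log 216) / q), fun n hn => ?_⟩
  have hn3 : (3 : ℝ) ≤ n := by exact_mod_cast hn
  have hn0 : (0 : ℝ) < n := by linarith
  have h1 : volume (frontier (multibrotSet n)) ≤ ENNReal.ofReal (8 * π / (n - 1 : ℕ) *
      (log (54 * log (6 * n)) + 2)) :=
    (measure_mono (W_1365a2_h11.frontier_subset_bad (by omega))).trans
      (W_1365a2_h11.volume_bad_le (by omega))
  refine h1.trans (ENNReal.ofReal_le_ofReal ?_)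
  have hln : log 3 ≤ log n := Real.log_le_log (by norm_num) hn3
  have hl1 : 1 < log n := lt_of_lt_of_le h3 hln
  have hm : ((n - 1 : ℕ) : ℝ) = n - 1 := by
    rw [Nat.cast_sub (by omega)]
    simp
  have h6 : log (6 * n) ≤ 4 * log n := by
    rw [Real.log_mul (by norm_num) (by positivity)]
    have h7 : log 6 ≤ 3 * log 3 := by
      have h8 : 3 * log 3 = log (3 ^ 3) := by
        rw [Real.log_pow]
        norm_num
      rw [h8]
      exact Real.log_le_log (by norm_num) (by norm_num)
    linarith
  have h9 : log (54 * log (6 * n)) ≤ log 216 + log (log n) := by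
    rw [← Real.log_mul (by norm_num) (by linarith)]
    refine Real.log_le_log ?_ (by linarith)
    have : 0 < log (6 * n) := Real.log_pos (by linarith)
    positivity
  have hll : q ≤ log (log n) := Real.log_le_log (by linarith) hln
  have h216 : 0 ≤ log 216 := Real.log_nonneg (by norm_num)
  have h10 : log (54 * log (6 * n)) + 2 ≤ (1 + (2 + log 216) / q) * log (log n) := by
    have h11 : 2 + log 216 ≤ (2 + log 216) / q * log (log n) := by
      rw [div_mul_eq_mul_div, le_div_iff₀ hq0]
      exact mul_le_mul_of_nonneg_left hll (by linarith)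
    linarith
  have h12 : 8 * π / (n - 1 : ℕ) ≤ 16 * π / n := by
    rw [hm, div_le_div_iff₀ (by linarith) hn0]
    nlinarith
  have h13 : 0 ≤ (1 + (2 + log 216) / q) * log (log n) := by
    have : 0 < log (log n) := lt_of_lt_of_le hq0 hll
    positivity
  calc 8 * π / (n - 1 : ℕ) * (log (54 * log (6 * n)) + 2)
      ≤ 8 * π / (n - 1 : ℕ) * ((1 + (2 + log 216) / q) * log (log n)) := by
        refine mul_le_mul_of_nonneg_left h10 ?_
        positivity
    _ ≤ 16 * π / n * ((1 + (2 + log 216) / q) * log (log n)) :=
        mul_le_mul_of_nonneg_right h12 h13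
    _ = 16 * π * (1 + (2 + log 216) / q) * (log (log n) / n) := by ring

end Pool.Agent.Results.MP_1365a2_an.LogLogBound
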